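import Mathlib

/-!
# Exponential polynomials on grids, and means over periods
-/

set_option autoImplicit false

open Finset Complex

namespace Pool.Agent.K1H67.SD

/-- `e (t) = exp (2 π i t)` -/
noncomputable def ee (t : ℝ) : ℂ := Complex.exp (2 * Real.pi * t * I)

lemma ee_add (s t : ℝ) : ee (s + t) = ee s * ee t := by
  unfold ee
  rw [← Complex.exp_add]
  congr 1
  push_cast
  ring

lemma ee_zero : ee 0 = 1 := by simp [ee]

lemma ee_int (n : ℤ) : ee n = 1 := by
  unfold ee
  rw [Complex.exp_eq_one_iff]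
  exact ⟨n, by push_cast; ring⟩

lemma norm_ee (t : ℝ) : ‖ee t‖ = 1 := by
  unfold ee
  have : (2 * Real.pi * t * I : ℂ) = ((2 * Real.pi * t : ℝ) : ℂ) * I := by push_cast; ring
  rw [this, Complex.norm_exp_ofReal_mul_I]

lemma conj_ee (t : ℝ) : (starRingEnd ℂ) (ee t) = ee (-t) := by
  unfold ee
  rw [← Complex.exp_conj]
  congr 1
  have h2 : (starRingEnd ℂ) 2 = 2 := by
    have := Complex.conj_ofReal 2
    exact_mod_cast this
  simp [h2]

lemma ee_nat_mul (l : ℕ) (t : ℝ) : ee (l * t) = ee t ^ l := by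
  unfold ee
  rw [← Complex.exp_nat_mul]
  congr 1
  push_cast
  ring

lemma ee_add_int (t : ℝ) (n : ℤ) : ee (t + n) = ee t := by
  rw [ee_add, ee_int, mul_one]

lemma continuous_ee : Continuous ee := by
  unfold ee
  fun_prop

/-- orthogonality on a grid -/
lemma grid_sum (q : ℕ) (hq : 0 < q) (t0 : ℝ) (c : ℤ) (hc : ¬ (q : ℤ) ∣ c) :
    ∑ l ∈ range q, ee (t0 + l * (c / q)) = 0 := by
  have h1 : ∀ l ∈ range q, ee (t0 + l * (c / q)) = ee t0 * ee (c / q) ^ l := by
    intro l _
    rw [ee_add, ee_nat_mul]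
  rw [Finset.sum_congr rfl h1, ← Finset.mul_sum]
  have hq' : (q : ℝ) ≠ 0 := by positivity
  have hne : ee (c / q) ≠ 1 := by
    intro h
    unfold ee at h
    rw [Complex.exp_eq_one_iff] at h
    obtain ⟨n, hn⟩ := h
    have h2 : ((c / q : ℝ) : ℂ) = n := by
      have hpi : (2 * Real.pi * I : ℂ) ≠ 0 := by
        simp [Real.pi_ne_zero]
      apply mul_right_cancel₀ hpi
      rw [← hn]
      ring
    have h3 : (c / q : ℝ) = n := by exact_mod_cast h2
    have h4 : (c : ℝ) = q * n := by field_simp at h3; linarith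
    exact hc ⟨n, by exact_mod_cast h4⟩
  have hpow : ee (c / q) ^ q = 1 := by
    rw [← ee_nat_mul]
    have : (q : ℝ) * (c / q) = (c : ℤ) := by field_simp
    rw [this, ee_int]
  have h5 : (∑ l ∈ range q, ee (c / q) ^ l) * (ee (c / q) - 1) = 0 := by
    rw [geom_sum_mul, hpow, sub_self]
  rcases mul_eq_zero.1 h5 with h | h
  · rw [h, mul_zero]
  · exact absurd (sub_eq_zero.1 h) hne

/-- the mean square of an exponential polynomial over a fine grid -/
theorem grid_sq (J : Finset ℤ) (w : ℤ → ℝ) (q : ℕ) (hq : 0 < q) (c : ℤ)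
    (hc : ∀ i ∈ J, ∀ j ∈ J, i ≠ j → ¬ (q : ℤ) ∣ (i - j) * c) (t0 : ℝ) :
    ∑ l ∈ range q, ‖∑ j ∈ J, (w j : ℂ) * ee (j * (t0 + l * (c / q)))‖ ^ 2 =
      q * ∑ j ∈ J, w j ^ 2 := by
  have h1 : ∀ t : ℝ, ((‖∑ j ∈ J, (w j : ℂ) * ee (j * t)‖ ^ 2 : ℝ) : ℂ) =
      ∑ i ∈ J, ∑ j ∈ J, ((w i : ℂ) * w j) * ee ((i - j) * t) := by
    intro t
    rw [Complex.ofReal_pow, ← Complex.mul_conj', map_sum, Finset.sum_mul_sum]
    refine Finset.sum_congr rfl fun i _ => Finset.sum_congr rfl fun j _ => ?_
    rw [map_mul, Complex.conj_ofReal, conj_ee]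
    have : ((i : ℝ) - j) * t = i * t + -(j * t) := by ring
    rw [this, ee_add]
    ring
  have h2 : ((∑ l ∈ range q, ‖∑ j ∈ J, (w j : ℂ) * ee (j * (t0 + l * (c / q)))‖ ^ 2 : ℝ) : ℂ) =
      ((q * ∑ j ∈ J, w j ^ 2 : ℝ) : ℂ) := by
    rw [Complex.ofReal_sum, Finset.sum_congr rfl fun l _ => h1 _, Finset.sum_comm]
    push_cast
    rw [Finset.mul_sum]
    refine Finset.sum_congr rfl fun i hi => ?_
    rw [Finset.sum_comm]
    rw [Finset.sum_eq_single i]
    · simp only [sub_self, zero_mul, ee_zero, mul_one, Finset.sum_const, Finset.card_range,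
        nsmul_eq_mul]
      ring
    · intro j hj hji
      rw [← Finset.mul_sum]
      have h3 : ∀ l ∈ range q, ee (((i : ℝ) - j) * (t0 + l * (c / q))) =
          ee (((i : ℝ) - j) * t0 + l * (((i - j) * c : ℤ) / q)) := by
        intro l _
        congr 1
        push_cast
        ring
      rw [Finset.sum_congr rfl h3, grid_sum q hq _ _ (hc i hi j hj (Ne.symm hji)), mul_zero]
    · intro h
      exact absurd hi h
  exact_mod_cast h2

/-- splitting a range into progressions -/
lemma sum_range_mul {β : Type*} [AddCommMonoid β] (f : ℕ → β) (A B : ℕ) :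
    ∑ m ∈ range (A * B), f m = ∑ l ∈ range B, ∑ r ∈ range A, f (r + A * l) := by
  induction B with
  | zero => simp
  | succ B ih =>
    rw [Nat.mul_succ, Finset.sum_range_add, ih, Finset.sum_range_succ]
    congr 1
    exact Finset.sum_congr rfl fun r _ => by rw [add_comm]

lemma per_mul {β : Type*} {f : ℕ → β} {T : ℕ} (h : ∀ m, f (m + T) = f m) (k m : ℕ) :
    f (m + T * k) = f m := by
  induction k with
  | zero => simp
  | succ k ih => rw [Nat.mul_succ, ← add_assoc, h, ih]

/-- **Means of products along a chain of periods.** -/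
theorem chain (K : ℕ) (F : ℕ → ℕ → ℝ) (L q : ℕ → ℕ) (cst : ℕ → ℝ)
    (hF : ∀ i < K, ∀ m, 0 ≤ F i m) (hL : ∀ i < K, 0 < L i) (hq : ∀ i < K, 0 < q i)
    (hc : ∀ i < K, 0 ≤ cst i)
    (hper : ∀ i < K, ∀ m, F i (m + L i * q i) = F i m)
    (hdvd : ∀ i, i + 1 < K → L i * q i ∣ L (i + 1))
    (hsum : ∀ i < K, ∀ r, ∑ l ∈ range (q i), F i (r + L i * l) ≤ q i * cst i) :
    ∃ T : ℕ, 0 < T ∧ (∀ m, ∏ i ∈ range K, F i (m + T) = ∏ i ∈ range K, F i m) ∧
      ∑ m ∈ range T, ∏ i ∈ range K, F i m ≤ T * ∏ i ∈ range K, cst i ∧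
      (K = 0 → T = 1) ∧ (∀ k, K = k + 1 → T = L k * q k) := by
  induction K with
  | zero => exact ⟨1, one_pos, by simp, by simp, fun _ => rfl, fun k hk => by omega⟩
  | succ K ih =>
    obtain ⟨T, hT, hTper, hTsum, hT0, hT1⟩ := ih (fun i hi => hF i (by omega))
      (fun i hi => hL i (by omega)) (fun i hi => hq i (by omega)) (fun i hi => hc i (by omega))
      (fun i hi => hper i (by omega)) (fun i hi => hdvd i (by omega))
      (fun i hi => hsum i (by omega))
    have hTL : T ∣ L K := by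
      rcases Nat.eq_zero_or_pos K with h0 | h0
      · rw [hT0 h0]; exact one_dvd _
      · obtain ⟨k, rfl⟩ : ∃ k, K = k + 1 := ⟨K - 1, by omega⟩
        rw [hT1 k rfl]
        exact hdvd k (by omega)
    obtain ⟨d, hd⟩ := hTL
    set P : ℕ → ℝ := fun m => ∏ i ∈ range K, F i m with hP
    have hPL : ∀ r l, P (r + L K * l) = P r := by
      intro r l
      rw [hd, mul_assoc]
      exact per_mul (f := P) hTper (d * l) r
    have hP0 : ∀ m, 0 ≤ P m := fun m => Finset.prod_nonneg fun i hi =>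
      hF i (by rw [Finset.mem_range] at hi; omega) m
    have hLK := hL K (by omega)
    have hqK := hq K (by omega)
    refine ⟨L K * q K, Nat.mul_pos hLK hqK, fun m => ?_, ?_, fun h => by omega, fun k hk => ?_⟩
    · rw [Finset.prod_range_succ, Finset.prod_range_succ, hper K (by omega)]
      congr 1
      exact hPL m (q K)
    · rw [sum_range_mul, Finset.sum_comm]
      have h1 : ∀ r ∈ range (L K), ∑ l ∈ range (q K), ∏ i ∈ range (K + 1), F i (r + L K * l) ≤
          P r * (q K * cst K) := by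
        intro r _
        have h2 : ∀ l ∈ range (q K), ∏ i ∈ range (K + 1), F i (r + L K * l) =
            P r * F K (r + L K * l) := by
          intro l _
          rw [Finset.prod_range_succ]
          congr 1
          exact hPL r l
        rw [Finset.sum_congr rfl h2, ← Finset.mul_sum]
        exact mul_le_mul_of_nonneg_left (hsum K (by omega) r) (hP0 r)
      refine (Finset.sum_le_sum h1).trans ?_
      rw [← Finset.sum_mul, Finset.prod_range_succ]
      have h3 : ∑ r ∈ range (L K), P r ≤ d * (T * ∏ i ∈ range K, cst i) := by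
        rw [hd, sum_range_mul]
        have h4 : ∀ l ∈ range d, ∑ r ∈ range T, P (r + T * l) = ∑ r ∈ range T, P r := by
          intro l _
          exact Finset.sum_congr rfl fun r _ => per_mul (f := P) hTper l r
        rw [Finset.sum_congr rfl h4, Finset.sum_const, Finset.card_range, nsmul_eq_mul]
        exact mul_le_mul_of_nonneg_left hTsum (Nat.cast_nonneg _)
      have h5 : (0 : ℝ) ≤ q K * cst K := mul_nonneg (Nat.cast_nonneg _) (hc K (by omega))
      calc (∑ r ∈ range (L K), P r) * (q K * cst K)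
          ≤ (d * (T * ∏ i ∈ range K, cst i)) * (q K * cst K) :=
            mul_le_mul_of_nonneg_right h3 h5
        _ = ((L K * q K : ℕ) : ℝ) * ((∏ i ∈ range K, cst i) * cst K) := by
            rw [hd]; push_cast; ring
    · have : k = K := by omega
      subst this
      rfl

/-- from a period to all ranges -/
lemma sum_le_of_period {P : ℕ → ℝ} {T : ℕ} (hT : 0 < T) (hP : ∀ m, 0 ≤ P m)
    (hper : ∀ m, P (m + T) = P m) {c : ℝ} (hc : ∑ m ∈ range T, P m ≤ T * c) (M : ℕ) :
    ∑ m ∈ range M, P m ≤ (M + T) * c := by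
  have h1 : M ≤ T * (M / T + 1) := by
    have := Nat.lt_mul_div_succ M hT
    exact this.le
  have hc0 : 0 ≤ c := by
    have h2 : 0 ≤ T * c := (Finset.sum_nonneg fun m _ => hP m).trans hc
    have h3 : (0 : ℝ) < T := by exact_mod_cast hT
    by_contra h
    push Not at h
    nlinarith
  calc ∑ m ∈ range M, P m ≤ ∑ m ∈ range (T * (M / T + 1)), P m :=
        Finset.sum_le_sum_of_subset_of_nonneg (Finset.range_mono h1) fun m _ _ => hP m
    _ = ∑ l ∈ range (M / T + 1), ∑ r ∈ range T, P (r + T * l) := sum_range_mul _ _ _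
    _ = ∑ l ∈ range (M / T + 1), ∑ r ∈ range T, P r :=
        Finset.sum_congr rfl fun l _ => Finset.sum_congr rfl fun r _ => per_mul (f := P) hper l r
    _ = ((M / T + 1 : ℕ) : ℝ) * ∑ r ∈ range T, P r := by
        rw [Finset.sum_const, Finset.card_range, nsmul_eq_mul]
    _ ≤ ((M / T + 1 : ℕ) : ℝ) * (T * c) := mul_le_mul_of_nonneg_left hc (Nat.cast_nonneg _)
    _ = (((M / T : ℕ) : ℝ) * T + T) * c := by push_cast; ring
    _ ≤ (M + T) * c := by
        apply mul_le_mul_of_nonneg_right _ hc0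
        have : ((M / T : ℕ) : ℝ) * T ≤ M := by
          exact_mod_cast Nat.div_mul_le_self M T
        linarith

end Pool.Agent.K1H67.SD
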