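import Pool.Agent.K1H67.SD.Prob

/-!
# Changing the digits at distant places does not increase the dimension of the orbit closure
-/

set_option autoImplicit false

open Finset Filter Topology Set

namespace Pool.Agent.K1H67.SD

/-- the numbers `d a^(-s)`, `d` in `J`, `s ≥ 0`, and `0` -/
def lim (a : ℕ) (J : Finset ℤ) : Set ℝ :=
  ⋃ d ∈ J, (fun t => (d : ℝ) * t) '' insert 0 (Set.range fun s : ℕ => ((a : ℝ)⁻¹) ^ s)

lemma lim_compact {a : ℕ} (ha : 2 ≤ a) (J : Finset ℤ) : IsCompact (lim a J) := by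
  refine J.isCompact_biUnion fun d _ => ?_
  refine IsCompact.image ?_ (by fun_prop)
  refine Filter.Tendsto.isCompact_insert_range ?_
  have ha2 : (2 : ℝ) ≤ a := by exact_mod_cast ha
  exact tendsto_pow_atTop_nhds_zero_of_lt_one (r := (a : ℝ)⁻¹) (by positivity)
    (inv_lt_one_of_one_lt₀ (by linarith))

lemma lim_countable (a : ℕ) (J : Finset ℤ) : (lim a J).Countable := by
  refine Set.Countable.biUnion (Finset.countable_toSet _) fun d _ => ?_
  exact ((countable_range _).insert _).image _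

lemma mem_lim {a s : ℕ} {d : ℤ} {J : Finset ℤ} (hd : d ∈ J) : (d : ℝ) / (a : ℝ) ^ s ∈ lim a J := by
  refine mem_iUnion₂.2 ⟨d, hd, _, mem_insert_of_mem _ ⟨s, rfl⟩, ?_⟩
  simp only
  rw [inv_pow, div_eq_mul_inv]

/-- a sequence which approaches a compact set -/
lemma closure_sub {u : ℕ → ℝ} {C : Set ℝ} (hC : IsCompact C)
    (h : ∀ ε > 0, ∀ᶠ m in atTop, ∃ c ∈ C, |u m - c| < ε) :
    closure (Set.range u) ⊆ Set.range u ∪ C := by
  intro y hy
  by_contra hcon
  rw [mem_union, not_or] at hcon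
  obtain ⟨hyr, hyC⟩ := hcon
  obtain ⟨ε, hε, hb⟩ := Metric.isOpen_iff.1 hC.isClosed.isOpen_compl y hyC
  obtain ⟨m1, hm1⟩ := eventually_atTop.1 (h (ε / 2) (by positivity))
  have hfin : (u '' Set.Iio m1).Finite := (Set.finite_Iio m1).image u
  have hy2 : y ∉ u '' Set.Iio m1 := fun ⟨m, _, hm⟩ => hyr ⟨m, hm⟩
  obtain ⟨ε', hε', hb'⟩ := Metric.isOpen_iff.1 hfin.isClosed.isOpen_compl y hy2
  obtain ⟨_, ⟨m, rfl⟩, hm⟩ := Metric.mem_closure_iff.1 hy (min (ε / 2) ε') (by positivity)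
  rcases lt_or_ge m m1 with hlt | hge
  · have h1 : u m ∈ Metric.ball y ε' := by
      rw [Metric.mem_ball, dist_comm]
      exact hm.trans_le (min_le_right _ _)
    exact hb' h1 ⟨m, hlt, rfl⟩
  · obtain ⟨c, hcC, hcd⟩ := hm1 m hge
    have h1 : c ∈ Metric.ball y ε := by
      rw [Metric.mem_ball, Real.dist_eq]
      have h2 : |y - u m| < ε / 2 := by
        rw [← Real.dist_eq]; exact hm.trans_le (min_le_left _ _)
      have h3 : c - y = -(u m - c) + -(y - u m) := by ring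
      rw [h3]
      refine (abs_add_le _ _).trans_lt ?_
      rw [abs_neg, abs_neg]
      linarith
    exact hb h1 hcC

/-- the sum of the digits after the place `k` -/
lemma tail_le {a : ℕ} (ha : 2 ≤ a) {n : ℕ → ℕ} (hn : StrictMono n) {B : ℝ} {d : ℕ → ℤ}
    (hd : ∀ k, |(d k : ℝ)| ≤ B) (k : ℕ) :
    |∑' j, (d (j + k) : ℝ) / (a : ℝ) ^ n (j + k)| ≤ 2 * B / (a : ℝ) ^ n k := by
  have ha2 : (2 : ℝ) ≤ a := by exact_mod_cast ha
  have ha0 : (0 : ℝ) < a := by linarith
  have hB : 0 ≤ B := (abs_nonneg _).trans (hd 0)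
  have hgeo : HasSum (fun j : ℕ => B / (a : ℝ) ^ n k * (1 / 2 : ℝ) ^ j) (B / (a : ℝ) ^ n k * 2) := by
    have := (hasSum_geometric_of_lt_one (r := (1 / 2 : ℝ)) (by norm_num) (by norm_num)).mul_left
      (B / (a : ℝ) ^ n k)
    norm_num at this
    simpa using this
  have hle : ∀ j, ‖(d (j + k) : ℝ) / (a : ℝ) ^ n (j + k)‖ ≤
      B / (a : ℝ) ^ n k * (1 / 2 : ℝ) ^ j := by
    intro j
    have h1 : n k + j ≤ n (j + k) := by
      have := hn.add_le_nat j k
      omega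
    rw [norm_div, Real.norm_eq_abs, Real.norm_eq_abs,
      abs_of_nonneg (by positivity : (0 : ℝ) ≤ (a : ℝ) ^ n (j + k))]
    calc |(d (j + k) : ℝ)| / (a : ℝ) ^ n (j + k) ≤ B / (a : ℝ) ^ n (j + k) := by
          gcongr
          exact hd _
      _ ≤ B / ((a : ℝ) ^ n k * 2 ^ j) := by
          apply div_le_div_of_nonneg_left hB (by positivity)
          calc (a : ℝ) ^ n k * 2 ^ j ≤ (a : ℝ) ^ n k * (a : ℝ) ^ j := by gcongr
            _ = (a : ℝ) ^ (n k + j) := by rw [pow_add]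
            _ ≤ _ := pow_le_pow_right₀ (by linarith) h1
      _ = _ := by rw [one_div, inv_pow]; field_simp
  have := tsum_of_norm_bounded hgeo hle
  rw [Real.norm_eq_abs] at this
  refine this.trans (le_of_eq ?_)
  ring

/-- the dimension of a countable union of translates -/
lemma dimH_translates {A R : Set ℝ} (hR : R.Countable) :
    dimH {z : ℝ | ∃ v ∈ A, ∃ r ∈ R, ∃ k : ℤ, z = v + r + k} ≤ dimH A := by
  have h1 : {z : ℝ | ∃ v ∈ A, ∃ r ∈ R, ∃ k : ℤ, z = v + r + k} =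
      ⋃ r ∈ R, ⋃ k : ℤ, (fun v => v + (r + k)) '' A := by
    ext z
    simp only [mem_ofPred_eq, mem_iUnion, Set.mem_image, exists_prop]
    constructor
    · rintro ⟨v, hv, r, hr, k, rfl⟩
      exact ⟨r, hr, k, v, hv, by ring⟩
    · rintro ⟨r, hr, k, v, hv, rfl⟩
      exact ⟨v, hv, r, hr, k, by ring⟩
  rw [h1, dimH_bUnion hR]
  refine iSup₂_le fun r _ => ?_
  rw [dimH_iUnion]
  refine iSup_le fun k => ?_
  exact ((isometry_add_right (r + (k : ℝ))).dimH_image A).le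

/-- **Changing digits at distant places does not increase the dimension of the orbit closure.** -/
theorem orbit_dim {a : ℕ} (ha : 2 ≤ a) {n : ℕ → ℕ} (hn : StrictMono n)
    (hgap : Tendsto (fun k => n (k + 1) - n k) atTop atTop) {J : Finset ℤ} {d : ℕ → ℤ}
    (hd : ∀ k, d k ∈ J) (y : ℝ) :
    dimH (closure (Set.range fun m : ℕ =>
      Int.fract ((a : ℝ) ^ m * (y + ∑' k, (d k : ℝ) / (a : ℝ) ^ n k)))) ≤
    dimH (closure (Set.range fun m : ℕ => Int.fract ((a : ℝ) ^ m * y))) := by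
  have ha2 : (2 : ℝ) ≤ a := by exact_mod_cast ha
  have ha0 : (0 : ℝ) < a := by linarith
  obtain ⟨B, hB0, hB⟩ := bound_J J
  have hdB : ∀ k, |(d k : ℝ)| ≤ B := fun k => hB _ (hd k)
  have hsum := summable_digits ha hn hdB
  set A : Set ℝ := closure (Set.range fun m : ℕ => Int.fract ((a : ℝ) ^ m * y)) with hA
  have hAsub : A ⊆ Icc 0 1 := closure_minimal (by
    rintro _ ⟨m, rfl⟩
    exact ⟨Int.fract_nonneg _, (Int.fract_lt_one _).le⟩) isClosed_Icc
  have hAc : IsCompact A := isCompact_Icc.of_isClosed_subset isClosed_closure hAsub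
  -- the limit points
  obtain ⟨W, hW⟩ := exists_nat_gt (3 * B + 3)
  set C : Set ℝ := (fun z : ℝ × ℝ × ℝ => z.1 + z.2.1 + z.2.2) ''
    (A ×ˢ (lim a J ×ˢ ((fun k : ℤ => (k : ℝ)) '' (Set.Icc (-(W : ℤ)) W)))) with hC
  have hCc : IsCompact C := by
    refine IsCompact.image ?_ (by fun_prop)
    exact hAc.prod ((lim_compact ha J).prod ((Set.finite_Icc _ _).image _).isCompact)
  have hCsub : C ⊆ {z : ℝ | ∃ v ∈ A, ∃ r ∈ lim a J, ∃ k : ℤ, z = v + r + k} := by
    rintro _ ⟨⟨v, r, k⟩, ⟨hv, hr, ⟨k', _, rfl⟩⟩, rfl⟩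
    exact ⟨v, hv, r, hr, k', rfl⟩
  have key : ∀ ε > 0, ∀ᶠ m : ℕ in atTop, ∃ c ∈ C,
      |Int.fract ((a : ℝ) ^ m * (y + ∑' k, (d k : ℝ) / (a : ℝ) ^ n k)) - c| < ε := by
    intro ε hε
    -- the gaps
    obtain ⟨G, hG⟩ : ∃ G : ℕ, ((a : ℝ)⁻¹) ^ G < min 1 (ε / (2 * B + 1)) := by
      exact exists_pow_lt_of_lt_one (by positivity) (inv_lt_one_of_one_lt₀ (by linarith))
    obtain ⟨k0, hk0⟩ := eventually_atTop.1 (hgap.eventually_ge_atTop G)
    filter_upwards [eventually_ge_atTop (n k0)] with m hm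
    -- the first place after `m`
    have hex : ∃ k, m < n k := ⟨m + 1, lt_of_lt_of_le (Nat.lt_succ_self m) hn.le_apply⟩
    classical
    obtain ⟨k, hkm, hkm'⟩ : ∃ k, m < n k ∧ ∀ j < k, n j ≤ m :=
      ⟨Nat.find hex, Nat.find_spec hex, fun j hj => not_lt.1 (Nat.find_min hex hj)⟩
    have hkk0 : k0 ≤ k := by
      by_contra h
      push Not at h
      have := hn.monotone h.le
      omega
    -- splitting the sum
    set τ : ℝ := (a : ℝ) ^ m * ∑' j, (d (j + (k + 1)) : ℝ) / (a : ℝ) ^ n (j + (k + 1)) with hτ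
    set I : ℤ := ∑ j ∈ Finset.range k, d j * (a : ℤ) ^ (m - n j) with hI
    have hsplit : (a : ℝ) ^ m * (y + ∑' k, (d k : ℝ) / (a : ℝ) ^ n k) =
        (a : ℝ) ^ m * y + I + (d k : ℝ) / (a : ℝ) ^ (n k - m) + τ := by
      rw [← hsum.sum_add_tsum_nat_add (k + 1), Finset.sum_range_succ, mul_add, mul_add, mul_add,
        ← hτ]
      have e1 : (a : ℝ) ^ m * ∑ j ∈ Finset.range k, (d j : ℝ) / (a : ℝ) ^ n j = (I : ℝ) := by
        rw [Finset.mul_sum, hI]
        push_cast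
        refine Finset.sum_congr rfl fun j hj => ?_
        have h1 := hkm' j (Finset.mem_range.1 hj)
        have h2 : (a : ℝ) ^ m = (a : ℝ) ^ (m - n j) * (a : ℝ) ^ n j := by
          rw [← pow_add]; congr 1; omega
        rw [h2]
        field_simp
      have e2 : (a : ℝ) ^ m * ((d k : ℝ) / (a : ℝ) ^ n k) = (d k : ℝ) / (a : ℝ) ^ (n k - m) := by
        have h2 : (a : ℝ) ^ n k = (a : ℝ) ^ (n k - m) * (a : ℝ) ^ m := by
          rw [← pow_add]; congr 1; omega
        rw [h2]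
        field_simp
      rw [e1, e2]
      ring
    have hτ1 : |τ| ≤ 2 * B * ((a : ℝ)⁻¹) ^ G := by
      have h1 := tail_le ha hn hdB (k + 1)
      have h2 : m + G ≤ n (k + 1) := by
        have h3 : G ≤ n (k + 1) - n k := hk0 k hkk0
        have h4 : n k < n (k + 1) := hn (Nat.lt_succ_self k)
        omega
      rw [hτ, abs_mul, abs_of_nonneg (by positivity : (0 : ℝ) ≤ (a : ℝ) ^ m)]
      calc (a : ℝ) ^ m * |∑' j, (d (j + (k + 1)) : ℝ) / (a : ℝ) ^ n (j + (k + 1))|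
          ≤ (a : ℝ) ^ m * (2 * B / (a : ℝ) ^ n (k + 1)) := by gcongr
        _ ≤ (a : ℝ) ^ m * (2 * B / (a : ℝ) ^ (m + G)) := by
            apply mul_le_mul_of_nonneg_left _ (by positivity)
            apply div_le_div_of_nonneg_left (by positivity) (by positivity)
            exact pow_le_pow_right₀ (by linarith) h2
        _ = 2 * B * ((a : ℝ)⁻¹) ^ G := by
            rw [inv_pow, pow_add]
            field_simp
    have hG1 : ((a : ℝ)⁻¹) ^ G ≤ 1 := (hG.trans_le (min_le_left _ _)).le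
    have hG2 : (2 * B + 1) * ((a : ℝ)⁻¹) ^ G < ε := by
      have := hG.trans_le (min_le_right _ _)
      rw [lt_div_iff₀ (by positivity)] at this
      linarith
    have hGpos : (0 : ℝ) < ((a : ℝ)⁻¹) ^ G := by positivity
    have hτε : |τ| < ε := by
      refine hτ1.trans_lt ?_
      nlinarith
    -- the approximating point
    set r : ℝ := (d k : ℝ) / (a : ℝ) ^ (n k - m) with hr
    have hrB : |r| ≤ B := by
      rw [hr, abs_div, abs_of_nonneg (by positivity : (0 : ℝ) ≤ (a : ℝ) ^ (n k - m))]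
      have h5 : (1 : ℝ) ≤ (a : ℝ) ^ (n k - m) := one_le_pow₀ (by linarith)
      calc |(d k : ℝ)| / (a : ℝ) ^ (n k - m) ≤ |(d k : ℝ)| / 1 := by
            apply div_le_div_of_nonneg_left (abs_nonneg _) one_pos h5
        _ ≤ B := by rw [div_one]; exact hdB k
    set k' : ℤ := ⌊(a : ℝ) ^ m * y⌋ + I - ⌊(a : ℝ) ^ m * (y + ∑' k, (d k : ℝ) / (a : ℝ) ^ n k)⌋
      with hk'
    have hfr : Int.fract ((a : ℝ) ^ m * (y + ∑' k, (d k : ℝ) / (a : ℝ) ^ n k)) =
        Int.fract ((a : ℝ) ^ m * y) + r + k' + τ := by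
      rw [Int.fract, Int.fract, hk']
      push_cast
      rw [hsplit]
      ring
    have hkW : k' ∈ Set.Icc (-(W : ℤ)) W := by
      have h6 := Int.fract_nonneg ((a : ℝ) ^ m * (y + ∑' k, (d k : ℝ) / (a : ℝ) ^ n k))
      have h7 := Int.fract_lt_one ((a : ℝ) ^ m * (y + ∑' k, (d k : ℝ) / (a : ℝ) ^ n k))
      have h8 := Int.fract_nonneg ((a : ℝ) ^ m * y)
      have h9 := Int.fract_lt_one ((a : ℝ) ^ m * y)
      have h10 : |τ| ≤ 2 * B := hτ1.trans (by nlinarith)
      rw [abs_le] at h10 hrB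
      rw [hfr] at h6 h7
      constructor
      · have : (-(W : ℝ)) ≤ k' := by linarith [h10.1, h10.2, hrB.1, hrB.2]
        exact_mod_cast this
      · have : (k' : ℝ) ≤ W := by linarith [h10.1, h10.2, hrB.1, hrB.2]
        exact_mod_cast this
    refine ⟨Int.fract ((a : ℝ) ^ m * y) + r + k', ?_, ?_⟩
    · refine ⟨(Int.fract ((a : ℝ) ^ m * y), r, (k' : ℝ)), ⟨subset_closure ⟨m, rfl⟩, ?_, k', hkW, rfl⟩, rfl⟩
      exact mem_lim (hd k)
    · rw [hfr, add_sub_cancel_left]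
      exact hτε
  have hsub := closure_sub hCc key
  refine (dimH_mono (hsub.trans (Set.union_subset_union_right _ hCsub))).trans ?_
  rw [dimH_union]
  refine max_le ?_ (dimH_translates (lim_countable a J))
  rw [(countable_range _).dimH_zero]
  exact bot_le

end Pool.Agent.K1H67.SD
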