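import Mathlib
import Pool.Agent.H493R3.Weyl
import Pool.Agent.K1H67.SD.Grid

/-!
# Weyl's criterion along a sequence of times; dense orbits
-/

set_option autoImplicit false

open MeasureTheory Filter Topology Set

namespace Pool.Agent.K1H67.SD

open Pool.Agent.H493R3 (Circ avg avg_norm_sub_le integral_fourier_eq_zero)

/-- Weyl's criterion along a sequence of times -/
theorem weyl_sub (x : ℕ → Circ) {N : ℕ → ℕ} (hN : StrictMono N)
    (hx : ∀ n : ℤ, n ≠ 0 → Tendsto (fun j => avg x (fun y => (fourier n y : ℂ)) (N j)) atTop (𝓝 0))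
    (h : C(Circ, ℂ)) :
    Tendsto (fun j => avg x h (N j)) atTop (𝓝 (∫ y : Circ, h y)) := by
  have hmem : ∀ f ∈ (Submodule.span ℂ (range <| @fourier 1)),
      Tendsto (fun j => avg x f (N j)) atTop (𝓝 (∫ y : Circ, f y)) := by
    intro f hf
    induction hf using Submodule.span_induction with
    | mem f hf =>
      obtain ⟨n, rfl⟩ := hf
      by_cases hn : n = 0
      · subst hn
        have : ∀ M : ℕ, 0 < M → avg x (fun y => (fourier 0 y : ℂ)) M = 1 := by
          intro M hM
          unfold avg
          simp only [fourier_zero, Finset.sum_const, Finset.card_range, nsmul_eq_mul, mul_one]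
          have : (M : ℂ) ≠ 0 := by exact_mod_cast hM.ne'
          field_simp
        have hint : ∫ y : Circ, (fourier 0 y : ℂ) = 1 := by
          simp [fourier_zero, Measure.real]
        rw [hint]
        refine Tendsto.congr' ?_ tendsto_const_nhds
        filter_upwards [hN.tendsto_atTop.eventually_gt_atTop 0] with j hj
        exact (this _ hj).symm
      · rw [integral_fourier_eq_zero hn]
        exact hx n hn
    | zero =>
      simp [avg]
    | add f g hf hg ihf ihg =>
      have hi : ∫ y : Circ, (f + g) y = (∫ y : Circ, f y) + ∫ y : Circ, g y := by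
        have := integral_add (μ := (volume : Measure Circ)) (f := f) (g := g)
          (f.continuous.integrable_of_hasCompactSupport (HasCompactSupport.of_compactSpace _))
          (g.continuous.integrable_of_hasCompactSupport (HasCompactSupport.of_compactSpace _))
        simpa using this
      rw [hi]
      refine (ihf.add ihg).congr (fun j => ?_)
      unfold avg
      rw [← add_div, ← Finset.sum_add_distrib]; rfl
    | smul c f hf ihf =>
      have hi : ∫ y : Circ, (c • f) y = c * (∫ y : Circ, f y) := by
        simp [integral_const_mul]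
      rw [hi]
      refine (ihf.const_mul c).congr (fun j => ?_)
      unfold avg
      simp only [ContinuousMap.coe_smul, Pi.smul_apply, smul_eq_mul]
      rw [← Finset.mul_sum, mul_div_assoc]
  rw [Metric.tendsto_atTop]
  intro ε hε
  have hcl : h ∈ (Submodule.span ℂ (range <| @fourier 1)).topologicalClosure := by
    rw [span_fourier_closure_eq_top]; trivial
  rw [← SetLike.mem_coe, Submodule.topologicalClosure_coe, Metric.mem_closure_iff] at hcl
  obtain ⟨f, hf, hfd⟩ := hcl (ε / 3) (by positivity)
  have := Metric.tendsto_atTop.1 (hmem f hf) (ε / 3) (by positivity)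
  obtain ⟨N0, hN0⟩ := this
  refine ⟨N0, fun j hj => ?_⟩
  have h1 := hN0 j hj
  have h2 : ‖avg x h (N j) - avg x f (N j)‖ ≤ ‖h - f‖ := avg_norm_sub_le x h f (N j)
  have h3 : ‖(∫ y : Circ, f y) - ∫ y : Circ, h y‖ ≤ ‖h - f‖ := by
    rw [← integral_sub (f.continuous.integrable_of_hasCompactSupport (HasCompactSupport.of_compactSpace _))
      (h.continuous.integrable_of_hasCompactSupport (HasCompactSupport.of_compactSpace _))]
    calc ‖∫ y : Circ, (f y - h y)‖ ≤ ‖h - f‖ * (volume : Measure Circ).real univ := by
          apply norm_integral_le_of_norm_le_const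
          filter_upwards with y
          rw [norm_sub_rev]
          exact (h - f).norm_coe_le_norm y
      _ = ‖h - f‖ := by simp [Measure.real]
  have h4 : ‖h - f‖ < ε / 3 := by rw [← dist_eq_norm]; exact hfd
  calc dist (avg x h (N j)) (∫ y : Circ, h y)
      ≤ dist (avg x h (N j)) (avg x f (N j)) + dist (avg x f (N j)) (∫ y : Circ, f y)
        + dist (∫ y : Circ, f y) (∫ y : Circ, h y) := dist_triangle4 _ _ _ _
    _ < ε / 3 + ε / 3 + ε / 3 := by
        rw [dist_eq_norm, dist_eq_norm (∫ y : Circ, f y)]
        linarith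
    _ = ε := by ring

/-- equidistribution along a sequence of times implies density -/
theorem dense_of_equi (x : ℕ → Circ) (N : ℕ → ℕ)
    (H : ∀ h : C(Circ, ℂ), Tendsto (fun j => avg x h (N j)) atTop (𝓝 (∫ y : Circ, h y))) :
    Dense (range x) := by
  by_contra hcon
  rw [dense_iff_closure_eq] at hcon
  obtain ⟨u, hu⟩ : ∃ u, u ∉ closure (range x) := by
    by_contra h
    push Not at h
    exact hcon (eq_univ_of_forall h)
  obtain ⟨f, hf0, hf1, hf01⟩ := exists_continuous_zero_one_of_isClosed
    (isClosed_closure (s := range x)) (isClosed_singleton (x := u))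
    (disjoint_singleton_right.2 hu)
  let h : C(Circ, ℂ) := ⟨fun x => (f x : ℂ), by fun_prop⟩
  have h1 : ∀ j, avg x h (N j) = 0 := by
    intro j
    unfold avg
    rw [Finset.sum_eq_zero, zero_div]
    intro m _
    have := hf0 (subset_closure (mem_range_self m))
    simp only [h, ContinuousMap.coe_mk]
    rw [this]
    simp
  have h2 := H h
  simp only [h1] at h2
  have h3 : ∫ y : Circ, h y = 0 := tendsto_nhds_unique h2 tendsto_const_nhds |>.symm ▸ rfl
  have h4 : ∫ y : Circ, h y = ((∫ y : Circ, f y : ℝ) : ℂ) := by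
    simp only [h, ContinuousMap.coe_mk]
    exact integral_complex_ofReal
  rw [h4] at h3
  have h5 : ∫ y : Circ, f y = 0 := by exact_mod_cast h3
  have h6 : 0 < ∫ y : Circ, f y := by
    refine Continuous.integral_pos_of_hasCompactSupport_nonneg_nonzero (x := u) f.continuous
      (HasCompactSupport.of_compactSpace _) (fun y => (hf01 y).1) ?_
    have := hf1 (mem_singleton u)
    rw [this]
    simp
  linarith

/-- from the circle to the fractional parts -/
theorem closure_fract {t : ℕ → ℝ} (h : Dense (range fun m => ((t m : ℝ) : Circ))) :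
    closure (range fun m => Int.fract (t m)) = Icc 0 1 := by
  refine Subset.antisymm (closure_minimal ?_ isClosed_Icc) ?_
  · rintro _ ⟨m, rfl⟩
    exact ⟨Int.fract_nonneg _, (Int.fract_lt_one _).le⟩
  · rw [← closure_Ioo (zero_ne_one' ℝ)]
    refine closure_minimal ?_ isClosed_closure
    intro y hy
    rw [Metric.mem_closure_iff]
    intro ε hε
    have hopen : IsOpen ((fun s : ℝ => (s : Circ)) '' (Metric.ball y ε ∩ Ioo 0 1)) :=
      QuotientAddGroup.isOpenMap_coe _ (Metric.isOpen_ball.inter isOpen_Ioo)
    obtain ⟨_, ⟨m, rfl⟩, s, ⟨hs1, hs2⟩, hs3⟩ := h.exists_mem_open hopen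
      ⟨_, mem_image_of_mem _ ⟨Metric.mem_ball_self hε, hy⟩⟩
    refine ⟨_, ⟨m, rfl⟩, ?_⟩
    have h1 : Int.fract (t m) = s := by
      have h2 : ((s - t m : ℝ) : Circ) = 0 := by
        rw [AddCircle.coe_sub, sub_eq_zero]
        exact hs3
      rw [AddCircle.coe_eq_zero_iff] at h2
      obtain ⟨k, hk⟩ := h2
      rw [zsmul_eq_mul, mul_one] at hk
      rw [Int.fract_eq_iff]
      refine ⟨hs2.1.le, hs2.2, -k, ?_⟩
      push_cast
      linarith
    show dist y (Int.fract (t m)) < ε
    rw [h1, dist_comm]
    exact hs1

lemma fourier_ee (n : ℤ) (t : ℝ) : (fourier n ((t : ℝ) : Circ) : ℂ) = ee (n * t) := by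
  rw [fourier_coe_apply]
  unfold ee
  congr 1
  push_cast
  ring

lemma dimH_Icc : dimH (Icc (0 : ℝ) 1) = 1 := by
  have h3 : (interior (Icc (0 : ℝ) 1)).Nonempty := by
    rw [interior_Icc]; exact ⟨1 / 2, by norm_num, by norm_num⟩
  rw [Real.dimH_of_nonempty_interior h3]
  simp

end Pool.Agent.K1H67.SD
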