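import Pool.Agent.K1H67.SD.LTE
import Pool.Agent.K1H67.SD.Grid

/-!
# Means of products of exponential polynomials at `h (b ^ m - v) / a ^ n`
-/

set_option autoImplicit false

open Finset

namespace Pool.Agent.K1H67.SD

lemma one_add_pow_mod (z : ℤ) (l : ℕ) : ∃ s : ℤ, (1 + z) ^ l = 1 + l * z + z ^ 2 * s := by
  induction l with
  | zero => exact ⟨0, by simp⟩
  | succ l ih =>
    obtain ⟨s, hs⟩ := ih
    refine ⟨s + l + s * z, ?_⟩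
    rw [pow_succ, hs]
    push_cast
    ring

/-- the shift of the exponent is a shift of the argument by a fraction with denominator `p ^ g` -/
lemma shift_arg {a b p : ℕ} (ha : a ≠ 0) (hp : p.Prime) {g n L m : ℕ} {c : ℤ}
    (h1 : (p : ℤ) ^ g ∣ (b : ℤ) ^ L - 1)
    (h2 : (p : ℤ) ^ g * ((b : ℤ) ^ m * ((b : ℤ) ^ L - 1)) = (a : ℤ) ^ n * c) (h v : ℤ) (l : ℕ) :
    ∃ s : ℤ, ((h * ((b : ℤ) ^ (m + L * l) - v) : ℤ) : ℝ) / (a : ℝ) ^ n =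
      ((h * ((b : ℤ) ^ m - v) : ℤ) : ℝ) / (a : ℝ) ^ n +
        l * ((h * c : ℤ) / ((p ^ g : ℕ) : ℝ)) + s := by
  obtain ⟨z', hz'⟩ := h1
  obtain ⟨s, hs⟩ := one_add_pow_mod ((b : ℤ) ^ L - 1) l
  refine ⟨h * s * (c * z'), ?_⟩
  set z : ℤ := (b : ℤ) ^ L - 1 with hz
  have hbL : (b : ℤ) ^ L = 1 + z := by rw [hz]; ring
  have e1 : (b : ℤ) ^ (m + L * l) = (b : ℤ) ^ m + l * ((b : ℤ) ^ m * z) +
      ((b : ℤ) ^ m * z) * z * s := by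
    rw [pow_add, pow_mul, hbL, hs]; ring
  have haR : (a : ℝ) ^ n ≠ 0 := pow_ne_zero _ (by exact_mod_cast ha)
  have hpR : ((p ^ g : ℕ) : ℝ) ≠ 0 := by
    have := hp.pos
    positivity
  have e2 : (((b : ℤ) ^ m * z : ℤ) : ℝ) / (a : ℝ) ^ n = c / ((p ^ g : ℕ) : ℝ) := by
    rw [div_eq_div_iff haR hpR]
    have h3 : ((p ^ g : ℕ) : ℤ) * ((b : ℤ) ^ m * z) = (a : ℤ) ^ n * c := by
      push_cast; exact h2
    have h4 : (((p ^ g : ℕ) : ℤ) : ℝ) * (((b : ℤ) ^ m * z : ℤ) : ℝ) = (((a : ℤ) ^ n : ℤ) : ℝ) * c := by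
      exact_mod_cast h3
    have h5 : (((a : ℤ) ^ n : ℤ) : ℝ) = (a : ℝ) ^ n := by push_cast; rfl
    have h6 : (((p ^ g : ℕ) : ℤ) : ℝ) = ((p ^ g : ℕ) : ℝ) := by push_cast; rfl
    rw [h5, h6] at h4
    linarith
  have e3 : (z : ℝ) = ((p ^ g : ℕ) : ℝ) * z' := by
    have : z = ((p ^ g : ℕ) : ℤ) * z' := by rw [hz']; push_cast; rfl
    exact_mod_cast this
  have e4 : ((h * ((b : ℤ) ^ (m + L * l) - v) : ℤ) : ℝ) / (a : ℝ) ^ n =
      ((h * ((b : ℤ) ^ m - v) : ℤ) : ℝ) / (a : ℝ) ^ n +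
        l * (h * ((((b : ℤ) ^ m * z : ℤ) : ℝ) / (a : ℝ) ^ n)) +
        h * s * (((((b : ℤ) ^ m * z : ℤ) : ℝ) / (a : ℝ) ^ n) * z) := by
    rw [e1]
    push_cast
    ring
  have e5 : (c : ℝ) / ((p ^ g : ℕ) : ℝ) * (((p ^ g : ℕ) : ℝ) * z') = c * z' := by
    field_simp
  rw [e4, e2, e3, e5]
  push_cast
  ring

/-- the exponent `g` separates the digits -/
lemma exists_g (J : Finset ℤ) {h : ℤ} (hh : h ≠ 0) {p : ℕ} (hp : p.Prime) :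
    ∃ g : ℕ, ∀ c : ℤ, ¬ (p : ℤ) ∣ c → ∀ i ∈ J, ∀ j ∈ J, i ≠ j →
      ¬ ((p ^ g : ℕ) : ℤ) ∣ (i - j) * (h * c) := by
  set g : ℕ := ∑ x ∈ J ×ˢ J, ((x.1 - x.2) * h).natAbs with hg
  refine ⟨g, fun c hc i hi j hj hij hdvd => ?_⟩
  have h1 : IsCoprime ((p : ℤ) ^ g) c := by
    apply IsCoprime.pow_left
    exact ((prime_int hp).coprime_iff_not_dvd).2 hc
  have h2 : (p : ℤ) ^ g ∣ (i - j) * h := by
    have h3 : (p : ℤ) ^ g ∣ ((i - j) * h) * c := by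
      have : ((p ^ g : ℕ) : ℤ) = (p : ℤ) ^ g := by push_cast; rfl
      rw [← this]
      convert hdvd using 1
      ring
    exact h1.dvd_of_dvd_mul_right h3
  have hne : (i - j) * h ≠ 0 := mul_ne_zero (sub_ne_zero.2 hij) hh
  have h4 : p ^ g ≤ ((i - j) * h).natAbs := by
    have h5 := Int.natAbs_dvd_natAbs.2 h2
    rw [Int.natAbs_pow, Int.natAbs_natCast] at h5
    exact Nat.le_of_dvd (Int.natAbs_pos.2 hne) h5
  have h6 : ((i - j) * h).natAbs ≤ g :=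
    Finset.single_le_sum (f := fun x : ℤ × ℤ => ((x.1 - x.2) * h).natAbs)
      (fun _ _ => Nat.zero_le _) (Finset.mk_mem_product hi hj)
  have h7 : g < p ^ g := Nat.lt_pow_self hp.one_lt
  omega

/-- the exponential polynomial with the coefficients `W j` -/
noncomputable def ph (J : Finset ℤ) (W : ℤ → ℝ) (t : ℝ) : ℂ := ∑ j ∈ J, (W j : ℂ) * ee (j * t)

lemma ph_add_int (J : Finset ℤ) (W : ℤ → ℝ) (t : ℝ) (s : ℤ) : ph J W (t + s) = ph J W t := by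
  unfold ph
  refine Finset.sum_congr rfl fun j _ => ?_
  have : (j : ℝ) * (t + s) = j * t + ((j * s : ℤ) : ℝ) := by push_cast; ring
  rw [this, ee_add_int]

/-- **The mean square of the products.** -/
theorem avg {a b p : ℕ} (ha : 2 ≤ a) (hb : 2 ≤ b) (hp : p.Prime) (hpa : p ∣ a) (hpb : ¬ p ∣ b)
    (J : Finset ℤ) {h : ℤ} (hh : h ≠ 0) : ∃ κ g : ℕ, ∀ (K : ℕ) (ν : ℕ → ℕ),
      (∀ i < K, κ ≤ ν i) → (∀ i, i + 1 < K → ν i + g ≤ ν (i + 1)) → ∃ T : ℕ,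
      ∀ (W : ℕ → ℤ → ℝ) (v : ℤ) (m0 : ℕ), (∀ i < K, a * ν i ≤ m0) → ∀ M : ℕ,
        ∑ m ∈ range M, ∏ i ∈ range K,
          ‖ph J (W i) (((h * ((b : ℤ) ^ (m0 + m) - v) : ℤ) : ℝ) / (a : ℝ) ^ ν i)‖ ^ 2 ≤
        (M + T) * ∏ i ∈ range K, ∑ j ∈ J, W i j ^ 2 := by
  obtain ⟨g, hg⟩ := exists_g J hh hp
  obtain ⟨κ, L, hL, hL1, hL2, hL3⟩ := shifts ha hb hp hpa hpb g
  refine ⟨κ, g, fun K ν hν hgap => ?_⟩
  set q : ℕ := p ^ g with hq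
  have hqpos : 0 < q := pow_pos hp.pos g
  refine ⟨if K = 0 then 1 else L (ν (K - 1)) * q, fun W v m0 hm0 M => ?_⟩
  -- the arguments
  have harg : ∀ i < K, ∀ r : ℕ, ∃ c : ℤ, ¬ (p : ℤ) ∣ c ∧ ∀ l : ℕ, ∃ s : ℤ,
      ((h * ((b : ℤ) ^ (m0 + (r + L (ν i) * l)) - v) : ℤ) : ℝ) / (a : ℝ) ^ ν i =
      ((h * ((b : ℤ) ^ (m0 + r) - v) : ℤ) : ℝ) / (a : ℝ) ^ ν i + l * ((h * c : ℤ) / (q : ℝ)) + s := by
    intro i hi r
    obtain ⟨c, hc1, hc2⟩ := hL2 (ν i) (hν i hi) (m0 + r) ((hm0 i hi).trans (by omega))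
    refine ⟨c, hc1, fun l => ?_⟩
    rw [← add_assoc]
    exact shift_arg (by omega) hp (hL1 (ν i) (hν i hi)) hc2 h v l
  have key := chain K
    (fun i m => ‖ph J (W i) (((h * ((b : ℤ) ^ (m0 + m) - v) : ℤ) : ℝ) / (a : ℝ) ^ ν i)‖ ^ 2)
    (fun i => L (ν i)) (fun _ => q) (fun i => ∑ j ∈ J, W i j ^ 2)
    (fun _ _ _ => by positivity) (fun i _ => hL _) (fun _ _ => hqpos)
    (fun i _ => Finset.sum_nonneg fun j _ => sq_nonneg _) ?_ ?_ ?_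
  · obtain ⟨T, hT, hTper, hTsum, hT0, hT1⟩ := key
    have hTe : (if K = 0 then 1 else L (ν (K - 1)) * q) = T := by
      rcases Nat.eq_zero_or_pos K with h0 | h0
      · rw [if_pos h0, hT0 h0]
      · rw [if_neg (by omega), hT1 (K - 1) (by omega)]
    rw [hTe]
    exact sum_le_of_period hT (fun m => Finset.prod_nonneg fun i _ => by positivity) hTper hTsum M
  · intro i hi m
    obtain ⟨c, -, hc⟩ := harg i hi m
    obtain ⟨s, hs⟩ := hc q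
    have : (q : ℝ) * ((h * c : ℤ) / (q : ℝ)) = ((h * c : ℤ) : ℝ) := by
      have : (q : ℝ) ≠ 0 := by positivity
      field_simp
    rw [this] at hs
    rw [hs, ph_add_int, ph_add_int]
  · intro i hi
    exact hL3 _ _ (hν i (by omega)) (hgap i hi)
  · intro i hi r
    obtain ⟨c, hc1, hc⟩ := harg i hi r
    refine le_of_eq ?_
    rw [← grid_sq J (W i) q hqpos (h * c) (fun x hx y hy hxy => hg c hc1 x hx y hy hxy)
      (((h * ((b : ℤ) ^ (m0 + r) - v) : ℤ) : ℝ) / (a : ℝ) ^ ν i)]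
    refine Finset.sum_congr rfl fun l _ => ?_
    obtain ⟨s, hs⟩ := hc l
    rw [hs, ph_add_int]
    rfl

end Pool.Agent.K1H67.SD
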