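import Mathlib

/-!
# Powers of `b` modulo `a ^ n`, seen at a prime `p` which divides `a` and does not divide `b`
-/

set_option autoImplicit false

open Finset

namespace Pool.Agent.K1H67.SD

/-- `p ^ c` divides `z` exactly -/
def Ex (p c : ℕ) (z : ℤ) : Prop := ∃ u : ℤ, z = (p : ℤ) ^ c * u ∧ ¬ (p : ℤ) ∣ u

lemma prime_int {p : ℕ} (hp : p.Prime) : Prime (p : ℤ) := Nat.prime_iff_prime_int.1 hp

lemma Ex.mul {p c d : ℕ} (hp : p.Prime) {y z : ℤ} (hy : Ex p c y) (hz : Ex p d z) :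
    Ex p (c + d) (y * z) := by
  obtain ⟨u, rfl, hu⟩ := hy
  obtain ⟨v, rfl, hv⟩ := hz
  refine ⟨u * v, by ring, fun h => ?_⟩
  rcases (prime_int hp).dvd_or_dvd h with h | h
  · exact hu h
  · exact hv h

lemma Ex.of_not {p : ℕ} {z : ℤ} (h : ¬ (p : ℤ) ∣ z) : Ex p 0 z := ⟨z, by simp, h⟩

/-- the geometric sum is `N` modulo every divisor of `X - 1` -/
lemma geom_mod (X d : ℤ) (N : ℕ) (h : d ∣ X - 1) : d ∣ (∑ i ∈ range N, X ^ i) - N := by
  have h1 : (∑ i ∈ range N, X ^ i) - N = ∑ i ∈ range N, (X ^ i - 1) := by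
    rw [Finset.sum_sub_distrib]; simp
  rw [h1]
  refine Finset.dvd_sum fun i _ => h.trans ?_
  have := sub_dvd_pow_sub_pow X 1 i
  simpa using this

lemma ex_pow_coprime {p c : ℕ} (hp : p.Prime) (hc : 1 ≤ c) {X : ℤ} (hX : Ex p c (X - 1)) {N : ℕ}
    (hN : ¬ p ∣ N) : Ex p c (X ^ N - 1) := by
  have hdvd : (p : ℤ) ∣ X - 1 := by
    obtain ⟨u, hu, -⟩ := hX
    rw [hu]
    exact (dvd_pow_self _ (by omega)).mul_right _
  have h1 : X ^ N - 1 = (X - 1) * ∑ i ∈ range N, X ^ i := (mul_geom_sum X N).symm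
  rw [h1]
  refine Ex.mul (d := 0) hp hX (Ex.of_not fun h => hN ?_)
  have h2 := geom_mod X p N hdvd
  have h3 : (p : ℤ) ∣ N := by
    have := dvd_sub h h2
    simpa using this
  exact_mod_cast h3

lemma ex_pow_p {p c : ℕ} (hp : p.Prime) (hc : 2 ≤ c) {X : ℤ} (hX : Ex p c (X - 1)) :
    Ex p (c + 1) (X ^ p - 1) := by
  have hdvd : (p : ℤ) ^ 2 ∣ X - 1 := by
    obtain ⟨u, hu, -⟩ := hX
    rw [hu]
    exact (pow_dvd_pow _ hc).mul_right _
  have h1 : X ^ p - 1 = (X - 1) * ∑ i ∈ range p, X ^ i := (mul_geom_sum X p).symm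
  rw [h1]
  refine Ex.mul (d := 1) hp hX ?_
  obtain ⟨w, hw⟩ := geom_mod X _ p hdvd
  refine ⟨1 + p * w, ?_, fun h => ?_⟩
  · have : (∑ i ∈ range p, X ^ i : ℤ) = p + (p : ℤ) ^ 2 * w := by linarith
    rw [this]; ring
  · have h2 : (p : ℤ) ∣ 1 := by
      have := dvd_sub h (Dvd.intro w rfl : (p : ℤ) ∣ p * w)
      simpa using this
    exact (prime_int hp).not_dvd_one h2

lemma ex_pow {p c : ℕ} (hp : p.Prime) (hc : 2 ≤ c) {X : ℤ} (hX : Ex p c (X - 1)) (i : ℕ) {N : ℕ}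
    (hN : ¬ p ∣ N) : Ex p (c + i) (X ^ (p ^ i * N) - 1) := by
  have h1 : Ex p (c + i) (X ^ (p ^ i) - 1) := by
    induction i with
    | zero => simpa using hX
    | succ i ih =>
      have := ex_pow_p hp (by omega : 2 ≤ c + i) ih
      rw [← pow_mul, ← pow_succ] at this
      exact this
  rw [pow_mul]
  exact ex_pow_coprime hp (by omega) h1 hN

/-- the part of the modulus prime to `p` -/
lemma other_part (b w n : ℕ) (hb : 2 ≤ b) (hw : 1 ≤ w) (m : ℕ) (hm : w * n ≤ m) :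
    (w ^ n : ℕ) ∣ b ^ m * (b ^ (Nat.totient w * w ^ n) - 1) := by
  rw [Nat.dvd_iff_prime_pow_dvd_dvd]
  intro r k hr hk
  rcases Nat.eq_zero_or_pos k with rfl | hk0
  · simp
  rcases Nat.eq_zero_or_pos n with rfl | hn0
  · rw [pow_zero] at hk
    exact hk.trans (one_dvd _)
  have hw0 : w ≠ 0 := by omega
  have hrw : r ∣ w := hr.dvd_of_dvd_pow ((dvd_pow_self r hk0.ne').trans hk)
  -- the exponent of `r` in `w`
  have hkn : k ≤ n * w.factorization r := by
    have h1 := (hr.pow_dvd_iff_le_factorization (pow_ne_zero n hw0)).1 hk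
    simpa [Nat.factorization_pow] using h1
  have hfac : w.factorization r < w := Nat.factorization_lt r hw0
  by_cases hrb : r ∣ b
  · refine Dvd.dvd.mul_right ?_ _
    have h2 : k ≤ m := by
      refine hkn.trans (le_trans ?_ hm)
      rw [mul_comm]
      exact Nat.mul_le_mul hfac.le le_rfl
    exact (pow_dvd_pow r h2).trans (pow_dvd_pow_of_dvd hrb m)
  · refine Dvd.dvd.mul_left ?_ _
    have hco : Nat.Coprime b (r ^ k) := by
      exact (Nat.Coprime.pow_right k ((Nat.Prime.coprime_iff_not_dvd hr).2 hrb).symm)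
    have htot : Nat.totient (r ^ k) ∣ Nat.totient w * w ^ n := by
      rw [Nat.totient_prime_pow hr hk0]
      have h3 : r - 1 ∣ Nat.totient w := by
        have := Nat.totient_dvd_of_dvd hrw
        rwa [Nat.totient_prime hr] at this
      have h4 : r ^ (k - 1) ∣ w ^ n := (pow_dvd_pow r (by omega)).trans hk
      rw [mul_comm]
      exact Nat.mul_dvd_mul h3 h4
    obtain ⟨t, ht⟩ := htot
    rw [ht, pow_mul]
    have h5 : b ^ Nat.totient (r ^ k) ≡ 1 [MOD r ^ k] := Nat.ModEq.pow_totient hco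
    have h6 := h5.pow t
    rw [one_pow] at h6
    exact (Nat.modEq_iff_dvd' (Nat.one_le_iff_ne_zero.2 (by positivity))).1 h6.symm

/-- **Shifts.** `L n` is a shift of the exponent which changes the powers of `b` modulo `a ^ n`
only at the last `g` digits in base `p` -/
theorem shifts {a b p : ℕ} (ha : 2 ≤ a) (hb : 2 ≤ b) (hp : p.Prime) (hpa : p ∣ a) (hpb : ¬ p ∣ b)
    (g : ℕ) : ∃ (κ : ℕ) (L : ℕ → ℕ), (∀ n, 0 < L n) ∧
      (∀ n, κ ≤ n → (p : ℤ) ^ g ∣ (b : ℤ) ^ L n - 1) ∧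
      (∀ n, κ ≤ n → ∀ m, a * n ≤ m → ∃ c : ℤ, ¬ (p : ℤ) ∣ c ∧
        (p : ℤ) ^ g * ((b : ℤ) ^ m * ((b : ℤ) ^ L n - 1)) = (a : ℤ) ^ n * c) ∧
      (∀ n n', κ ≤ n' → n' + g ≤ n → L n' * p ^ g ∣ L n) := by
  have ha0 : a ≠ 0 := by omega
  -- `a = p ^ s * w`
  obtain ⟨s, w, hpw, haw⟩ : ∃ s w : ℕ, ¬ p ∣ w ∧ a = p ^ s * w :=
    Nat.exists_eq_pow_mul_and_not_dvd ha0 p hp.ne_one
  have hs : 1 ≤ s := by
    rcases Nat.eq_zero_or_pos s with rfl | h
    · rw [pow_zero, one_mul] at haw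
      exact absurd (haw ▸ hpa) hpw
    · exact h
  have hw1 : 1 ≤ w := by
    rcases Nat.eq_zero_or_pos w with rfl | h
    · simp at hpw
    · exact h
  have hwa : w ≤ a := by
    rw [haw]; exact Nat.le_mul_of_pos_left _ (pow_pos hp.pos _)
  -- `totient w = p ^ e * t`
  obtain ⟨e, t, hpt, htw⟩ : ∃ e t : ℕ, ¬ p ∣ t ∧ Nat.totient w = p ^ e * t :=
    Nat.exists_eq_pow_mul_and_not_dvd (Nat.totient_pos.2 hw1).ne' p hp.ne_one
  have ht1 : 1 ≤ t := by
    rcases Nat.eq_zero_or_pos t with rfl | h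
    · simp at hpt
    · exact h
  -- the starting power
  set L0 := Nat.totient (p ^ 2) with hL0
  have hL0pos : 0 < L0 := Nat.totient_pos.2 (pow_pos hp.pos 2)
  have hco : Nat.Coprime b (p ^ 2) :=
    Nat.Coprime.pow_right 2 ((Nat.Prime.coprime_iff_not_dvd hp).2 hpb).symm
  have hX : (p : ℤ) ^ 2 ∣ (b : ℤ) ^ L0 - 1 := by
    have h5 : b ^ L0 ≡ 1 [MOD p ^ 2] := Nat.ModEq.pow_totient hco
    have h6 := (Nat.modEq_iff_dvd.1 h5.symm)
    push_cast at h6
    exact h6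
  have hXne : (b : ℤ) ^ L0 - 1 ≠ 0 := by
    have h1 : 1 < b ^ L0 := Nat.one_lt_pow hL0pos.ne' (by omega)
    have h2 : (1 : ℤ) < (b : ℤ) ^ L0 := by exact_mod_cast h1
    linarith
  obtain ⟨c0, hc0, hEx⟩ : ∃ c0 : ℕ, 2 ≤ c0 ∧ Ex p c0 ((b : ℤ) ^ L0 - 1) := by
    have hfin : FiniteMultiplicity (p : ℤ) ((b : ℤ) ^ L0 - 1) :=
      Int.finiteMultiplicity_iff.2 ⟨by simpa using hp.ne_one, hXne⟩
    obtain ⟨u, hu1, hu2⟩ := hfin.exists_eq_pow_mul_and_not_dvd
    refine ⟨_, ?_, u, hu1, hu2⟩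
    exact hfin.le_multiplicity_of_pow_dvd hX
  -- the constants
  refine ⟨2 * g + c0 + e, fun n => L0 * (p ^ (s * n - (g + c0 + e)) * (Nat.totient w * w ^ n)),
    fun n => ?_, fun n hn => ?_, fun n hn m hm => ?_, fun n n' hn' hnn => ?_⟩
  · have h1 : 0 < Nat.totient w := Nat.totient_pos.2 hw1
    have h2 := hp.pos
    positivity
  · -- exact divisibility
    have hsn : n ≤ s * n := Nat.le_mul_of_pos_left _ hs
    have h1 : Ex p (c0 + (s * n - (g + c0 + e) + e))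
        (((b : ℤ) ^ L0) ^ (p ^ (s * n - (g + c0 + e) + e) * (t * w ^ n)) - 1) := by
      refine ex_pow hp hc0 hEx _ fun h => ?_
      rcases hp.dvd_mul.1 h with h | h
      · exact hpt h
      · exact hpw (hp.dvd_of_dvd_pow h)
    have h2 : (b : ℤ) ^ (L0 * (p ^ (s * n - (g + c0 + e)) * (Nat.totient w * w ^ n))) =
        ((b : ℤ) ^ L0) ^ (p ^ (s * n - (g + c0 + e) + e) * (t * w ^ n)) := by
      rw [← pow_mul, htw]
      congr 1
      ring
    rw [h2]
    obtain ⟨u, hu, -⟩ := h1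
    rw [hu]
    exact (pow_dvd_pow _ (by omega)).mul_right _
  · have hsn : n ≤ s * n := Nat.le_mul_of_pos_left _ hs
    have h1 : Ex p (c0 + (s * n - (g + c0 + e) + e))
        (((b : ℤ) ^ L0) ^ (p ^ (s * n - (g + c0 + e) + e) * (t * w ^ n)) - 1) := by
      refine ex_pow hp hc0 hEx _ fun h => ?_
      rcases hp.dvd_mul.1 h with h | h
      · exact hpt h
      · exact hpw (hp.dvd_of_dvd_pow h)
    have h2 : (b : ℤ) ^ (L0 * (p ^ (s * n - (g + c0 + e)) * (Nat.totient w * w ^ n))) =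
        ((b : ℤ) ^ L0) ^ (p ^ (s * n - (g + c0 + e) + e) * (t * w ^ n)) := by
      rw [← pow_mul, htw]
      congr 1
      ring
    set z : ℤ := (b : ℤ) ^ (L0 * (p ^ (s * n - (g + c0 + e)) * (Nat.totient w * w ^ n))) - 1
      with hz
    have hzEx : Ex p (s * n - g) z := by
      rw [hz, h2]
      have : c0 + (s * n - (g + c0 + e) + e) = s * n - g := by omega
      rw [← this]
      exact h1
    -- the other primes
    have h3 : ((w : ℤ) ^ n) ∣ (b : ℤ) ^ m * z := by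
      have hm' : w * n ≤ m := (Nat.mul_le_mul_right n hwa).trans hm
      have h4 := other_part b w n hb hw1 m hm'
      have h5 : (b ^ (Nat.totient w * w ^ n) - 1 : ℕ) ∣
          b ^ (L0 * (p ^ (s * n - (g + c0 + e)) * (Nat.totient w * w ^ n))) - 1 := by
        have : L0 * (p ^ (s * n - (g + c0 + e)) * (Nat.totient w * w ^ n)) =
            (Nat.totient w * w ^ n) * (L0 * p ^ (s * n - (g + c0 + e))) := by ring
        rw [this, pow_mul b (Nat.totient w * w ^ n)]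
        have := Nat.sub_dvd_pow_sub_pow (b ^ (Nat.totient w * w ^ n)) 1
          (L0 * p ^ (s * n - (g + c0 + e)))
        rwa [one_pow] at this
      have h6 : w ^ n ∣ b ^ m *
          (b ^ (L0 * (p ^ (s * n - (g + c0 + e)) * (Nat.totient w * w ^ n))) - 1) :=
        h4.trans (Nat.mul_dvd_mul dvd_rfl h5)
      have h7 : ((w ^ n : ℕ) : ℤ) ∣ ((b ^ m *
          (b ^ (L0 * (p ^ (s * n - (g + c0 + e)) * (Nat.totient w * w ^ n))) - 1) : ℕ) : ℤ) :=
        Int.natCast_dvd_natCast.2 h6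
      have h8 : 1 ≤ b ^ (L0 * (p ^ (s * n - (g + c0 + e)) * (Nat.totient w * w ^ n))) :=
        Nat.one_le_iff_ne_zero.2 (by positivity)
      rw [Nat.cast_mul, Nat.cast_sub h8] at h7
      push_cast at h7
      exact h7
    obtain ⟨u, hu1, hu2⟩ := hzEx
    -- `w ^ n` divides `b ^ m * u`
    have hcop : IsCoprime ((w : ℤ) ^ n) ((p : ℤ) ^ (s * n - g)) := by
      apply IsCoprime.pow
      rw [Nat.isCoprime_iff_coprime]
      exact ((Nat.Prime.coprime_iff_not_dvd hp).2 hpw).symm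
    have h9 : ((w : ℤ) ^ n) ∣ (b : ℤ) ^ m * u := by
      have : (b : ℤ) ^ m * z = (p : ℤ) ^ (s * n - g) * ((b : ℤ) ^ m * u) := by
        rw [hu1]; ring
      rw [this] at h3
      exact hcop.dvd_of_dvd_mul_left h3
    obtain ⟨c, hc⟩ := h9
    refine ⟨c, fun hpc => ?_, ?_⟩
    · have h10 : (p : ℤ) ∣ (b : ℤ) ^ m * u := by
        rw [hc]; exact hpc.mul_left _
      rcases (prime_int hp).dvd_or_dvd h10 with h | h
      · have := (prime_int hp).dvd_of_dvd_pow h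
        exact hpb (by exact_mod_cast this)
      · exact hu2 h
    · have h11 : (a : ℤ) ^ n = (p : ℤ) ^ g * (p : ℤ) ^ (s * n - g) * (w : ℤ) ^ n := by
        rw [← pow_add, haw]
        push_cast
        rw [mul_pow, ← pow_mul]
        congr 2
        omega
      rw [h11, hu1]
      calc (p : ℤ) ^ g * ((b : ℤ) ^ m * ((p : ℤ) ^ (s * n - g) * u))
          = (p : ℤ) ^ g * (p : ℤ) ^ (s * n - g) * ((b : ℤ) ^ m * u) := by ring
        _ = _ := by rw [hc]; ring
  · have h1 : s * n' + g ≤ s * n := by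
      have : s * (n' + g) ≤ s * n := Nat.mul_le_mul_left _ hnn
      have h2 : g ≤ s * g := Nat.le_mul_of_pos_left _ hs
      rw [mul_add] at this
      omega
    have hsn : n' ≤ s * n' := Nat.le_mul_of_pos_left _ hs
    have h3 : w ^ n' ∣ w ^ n := pow_dvd_pow _ (by omega)
    have h4 : p ^ (s * n' - (g + c0 + e)) * p ^ g ∣ p ^ (s * n - (g + c0 + e)) := by
      rw [← pow_add]
      exact pow_dvd_pow _ (by omega)
    have h5 : L0 * (p ^ (s * n' - (g + c0 + e)) * (Nat.totient w * w ^ n')) * p ^ g =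
        L0 * ((p ^ (s * n' - (g + c0 + e)) * p ^ g) * (Nat.totient w * w ^ n')) := by ring
    show L0 * (p ^ (s * n' - (g + c0 + e)) * (Nat.totient w * w ^ n')) * p ^ g ∣ _
    rw [h5]
    exact Nat.mul_dvd_mul dvd_rfl (Nat.mul_dvd_mul h4 (Nat.mul_dvd_mul dvd_rfl h3))

end Pool.Agent.K1H67.SD
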