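import Pool.Agent.K1H67.SD.Second
import Pool.Agent.K1H67.SD.Weyl
import Pool.Agent.K1H67.SD.Zero

/-!
# Random digits at sparse places: almost sure and residual statements
-/

set_option autoImplicit false

open Finset MeasureTheory ProbabilityTheory Filter Topology

namespace Pool.Agent.K1H67.SD

open Pool.Agent.H493R3 (Circ)

/-- some prime divides `a` but not `b` -/
def PrimeOff (a b : ℕ) : Prop := ∃ p : ℕ, p.Prime ∧ p ∣ a ∧ ¬ p ∣ b

/-- equidistribution of the orbit of `x` under multiplication by `b` along the times `N j` -/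
def Equi (b : ℕ) (x : ℝ) (N : ℕ → ℕ) : Prop :=
  ∀ f : C(Circ, ℂ), Tendsto (fun j => H493R3.avg (fun m => (((b : ℝ) ^ m * x : ℝ) : Circ)) f (N j)) atTop
    (𝓝 (∫ t : Circ, f t))

lemma Equi.dense {b : ℕ} {x : ℝ} {N : ℕ → ℕ} (h : Equi b x N) :
    closure (Set.range fun m : ℕ => Int.fract ((b : ℝ) ^ m * x)) = Set.Icc 0 1 :=
  closure_fract (t := fun m : ℕ => (b : ℝ) ^ m * x)
    (dense_of_equi (fun m => (((b : ℝ) ^ m * x : ℝ) : Circ)) N h)

/-- **Almost sure equidistribution.** -/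
theorem main_ae {Ω : Type*} [MeasurableSpace Ω] {P : Measure Ω} [IsProbabilityMeasure P] {a : ℕ}
    (ha : 2 ≤ a) {n : ℕ → ℕ} (hn : StrictMono n)
    {D : ℕ → Ω → ℤ} (hD : ∀ k, Measurable (D k)) (hind : iIndepFun D P) {J : Finset ℤ}
    (hJ : ∀ k ω, D k ω ∈ J) {δ : ℕ → ℝ} (h0 : ∀ k, 0 ≤ δ k) (hδ : ¬ Summable δ)
    (hnd : ∀ (k : ℕ) (j : ℤ), P.real {ω | D k ω = j} ≤ 1 - δ k) (y : ℝ) :
    ∃ N : ℕ → ℕ, StrictMono N ∧ ∀ᵐ ω ∂P, ∀ b : ℕ, 2 ≤ b → PrimeOff a b →
      Equi b (X a n y D ω) N := by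
  classical
  have hZ := measurable_X (P := P) ha hn hD hJ y
  let cd : ℕ → ℤ × ℕ := Denumerable.ofNat (ℤ × ℕ)
  let good : ℤ × ℕ → Prop := fun q => q.1 ≠ 0 ∧ 2 ≤ q.2 ∧ PrimeOff a q.2
  let Y : ℕ → ℕ → Ω → ℂ := fun i M ω => if good (cd i) then
    (∑ m ∈ range M, ee ((cd i).1 * ((cd i).2 : ℝ) ^ m * X a n y D ω)) / M else 0
  have hmeas : ∀ i M, Measurable (Y i M) := by
    intro i M
    by_cases hg : good (cd i)
    · have : Y i M = fun ω =>
          (∑ m ∈ range M, ee ((cd i).1 * ((cd i).2 : ℝ) ^ m * X a n y D ω)) / (M : ℂ) := by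
        funext ω; exact if_pos hg
      rw [this]
      refine Measurable.div_const ?_ _
      refine Finset.measurable_fun_sum _ fun m _ => ?_
      exact continuous_ee.measurable.comp (hZ.const_mul _)
    · have : Y i M = fun ω => 0 := by
        funext ω; exact if_neg hg
      rw [this]
      exact measurable_const
  have hbd : ∀ i M ω, ‖Y i M ω‖ ≤ 1 := by
    intro i M ω
    by_cases hg : good (cd i)
    · have : Y i M ω =
          (∑ m ∈ range M, ee ((cd i).1 * ((cd i).2 : ℝ) ^ m * X a n y D ω)) / (M : ℂ) := if_pos hg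
      rw [this, norm_div, Complex.norm_natCast]
      apply div_le_one_of_le₀ _ (Nat.cast_nonneg _)
      refine (norm_sum_le _ _).trans ?_
      simp [norm_ee]
    · have : Y i M ω = 0 := if_neg hg
      rw [this, norm_zero]
      exact zero_le_one
  have hint : ∀ i M, Integrable (fun ω => ‖Y i M ω‖ ^ 2) P := by
    intro i M
    refine Integrable.of_bound ((hmeas i M).norm.pow_const 2).aestronglyMeasurable 1
      (Eventually.of_forall fun ω => ?_)
    rw [Real.norm_of_nonneg (by positivity)]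
    exact pow_le_one₀ (norm_nonneg _) (hbd i M ω)
  have hlim : ∀ i, Tendsto (fun M => ∫ ω, ‖Y i M ω‖ ^ 2 ∂P) atTop (𝓝 0) := by
    intro i
    by_cases hg : good (cd i)
    · obtain ⟨hh, hb, p, hp, hpa, hpb⟩ := hg
      refine (mom_tendsto ha hb hp hpa hpb hn hD hind hJ h0 hδ hnd y hh).congr fun M => ?_
      unfold mom
      rw [← integral_div]
      refine integral_congr_ae (Eventually.of_forall fun ω => ?_)
      have : Y i M ω =
          (∑ m ∈ range M, ee ((cd i).1 * ((cd i).2 : ℝ) ^ m * X a n y D ω)) / (M : ℂ) :=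
        if_pos ⟨hh, hb, p, hp, hpa, hpb⟩
      simp only
      rw [this, norm_div, Complex.norm_natCast, div_pow]
    · have : (fun M => ∫ ω, ‖Y i M ω‖ ^ 2 ∂P) = fun _ => 0 := by
        funext M
        have h1 : ∀ ω, ‖Y i M ω‖ ^ 2 = 0 := by
          intro ω
          have : Y i M ω = 0 := if_neg hg
          rw [this]; simp
        simp only [h1, integral_zero]
      rw [this]
      exact tendsto_const_nhds
  obtain ⟨N, hN, hae⟩ := ae_common hmeas hint hlim
  refine ⟨N, hN, ?_⟩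
  filter_upwards [hae] with ω hω b hb hpr
  refine weyl_sub _ hN fun h hh => ?_
  have h1 := hω (Encodable.encode ((h, b) : ℤ × ℕ))
  refine h1.congr fun j => ?_
  have hcd : cd (Encodable.encode ((h, b) : ℤ × ℕ)) = (h, b) := Denumerable.ofNat_encode _
  have hg : good (cd (Encodable.encode ((h, b) : ℤ × ℕ))) := by
    rw [hcd]; exact ⟨hh, hb, hpr⟩
  have h2 : Y (Encodable.encode ((h, b) : ℤ × ℕ)) (N j) ω =
      (∑ m ∈ range (N j), ee ((h : ℝ) * (b : ℝ) ^ m * X a n y D ω)) / (N j : ℂ) := by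
    rw [show Y (Encodable.encode ((h, b) : ℤ × ℕ)) (N j) ω = _ from if_pos hg, hcd]
  rw [h2]
  unfold H493R3.avg
  congr 1
  refine Finset.sum_congr rfl fun m _ => ?_
  show ee _ = (fourier h ((((b : ℝ) ^ m * X a n y D ω : ℝ)) : Circ) : ℂ)
  rw [fourier_ee]
  congr 1
  ring

/-! ## residual sets of digits -/

/-- the number with the digits `d` -/
noncomputable def num (a : ℕ) (n : ℕ → ℕ) (y : ℝ) (d : ℕ → ℤ) : ℝ :=
  y + ∑' k, (d k : ℝ) / (a : ℝ) ^ n k

/-- digits may be prescribed at finitely many places -/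
theorem exists_digits {a : ℕ} (ha : 2 ≤ a) {n : ℕ → ℕ} (hn : StrictMono n) (y : ℝ) {J : Finset ℤ}
    {E : ℕ → Finset ℤ} (hE : ∀ k, E k ⊆ J) (hE2 : ∀ k, 1 < (E k).card) (c : ∀ k, E k) (K : ℕ) :
    ∃ (d : ∀ k, E k) (N : ℕ → ℕ), (∀ k < K, d k = c k) ∧ ∀ b : ℕ, 2 ≤ b → PrimeOff a b →
      Equi b (num a n y fun k => d k) N := by
  classical
  choose u hu v hv huv using fun k => Finset.one_lt_card.1 (hE2 k)
  -- fair bits
  let μ : Measure Bool := (PMF.uniformOfFintype Bool).toMeasure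
  let P : Measure (ℕ → Bool) := Measure.infinitePi fun _ => μ
  let val : ∀ k, Bool → E k := fun k t => if k < K then c k else if t then ⟨u k, hu k⟩ else ⟨v k, hv k⟩
  let D : ℕ → (ℕ → Bool) → ℤ := fun k ω => (val k (ω k) : ℤ)
  have hD : ∀ k, Measurable (D k) := fun k =>
    (measurable_from_top (f := fun t : Bool => ((val k t : E k) : ℤ))).comp (measurable_pi_apply k)
  have hind : iIndepFun D P :=
    iIndepFun_infinitePi (X := fun k t => ((val k t : E k) : ℤ)) fun k => measurable_from_top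
  have hJ : ∀ k ω, D k ω ∈ J := fun k ω => hE k (val k (ω k)).2
  let δ : ℕ → ℝ := fun k => if k < K then 0 else 1 / 2
  have h0 : ∀ k, 0 ≤ δ k := by
    intro k
    show (0 : ℝ) ≤ if k < K then 0 else 1 / 2
    split_ifs <;> norm_num
  have hδ : ¬ Summable δ := by
    intro hs
    have h1 : Tendsto δ atTop (𝓝 0) := hs.tendsto_atTop_zero
    have h2 : Tendsto δ atTop (𝓝 (1 / 2)) := by
      refine tendsto_const_nhds.congr' ?_
      filter_upwards [eventually_ge_atTop K] with k hk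
      exact (if_neg (by omega)).symm
    have := tendsto_nhds_unique h1 h2
    norm_num at this
  have hcoin : ∀ (k : ℕ) (t : Bool), P.real {ω | ω k = t} = 1 / 2 := by
    intro k t
    have h1 : P.map (fun ω => ω k) = μ := Measure.infinitePi_map_eval _ k
    have h2 : P {ω | ω k = t} = μ {t} := by
      rw [← h1, Measure.map_apply (measurable_pi_apply k) (measurableSet_singleton t)]
      rfl
    rw [Measure.real, h2]
    show (((PMF.uniformOfFintype Bool).toMeasure {t})).toReal = 1 / 2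
    rw [PMF.toMeasure_apply_singleton _ _ (measurableSet_singleton t)]
    simp
  have hnd : ∀ (k : ℕ) (j : ℤ), P.real {ω | D k ω = j} ≤ 1 - δ k := by
    intro k j
    by_cases hk : k < K
    · have : δ k = 0 := if_pos hk
      rw [this, sub_zero]
      exact measureReal_le_one
    · have h1 : δ k = 1 / 2 := if_neg hk
      have hval : ∀ ω : ℕ → Bool, D k ω = if ω k then u k else v k := by
        intro ω
        show ((val k (ω k) : E k) : ℤ) = _
        have : val k (ω k) = if ω k then (⟨u k, hu k⟩ : E k) else ⟨v k, hv k⟩ := if_neg hk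
        rw [this]
        split_ifs <;> rfl
      have h2 : ∃ t : Bool, {ω : ℕ → Bool | D k ω = j} ⊆ {ω | ω k = t} := by
        by_cases hj : u k = j
        · refine ⟨true, fun ω hω => ?_⟩
          simp only [Set.mem_ofPred_eq] at hω ⊢
          rw [hval] at hω
          by_contra hne
          rw [if_neg hne] at hω
          exact huv k (hj.trans hω.symm)
        · refine ⟨false, fun ω hω => ?_⟩
          simp only [Set.mem_ofPred_eq] at hω ⊢
          rw [hval] at hω
          by_contra hne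
          rw [Bool.not_eq_false] at hne
          rw [if_pos hne] at hω
          exact hj hω
      obtain ⟨t, ht⟩ := h2
      calc P.real {ω | D k ω = j} ≤ P.real {ω | ω k = t} := measureReal_mono ht
        _ = 1 / 2 := hcoin k t
        _ = 1 - δ k := by rw [h1]; norm_num
  obtain ⟨N, -, hae⟩ := main_ae ha hn hD hind hJ h0 hδ hnd y
  obtain ⟨ω, hω⟩ := hae.exists
  refine ⟨fun k => val k (ω k), N, fun k hk => if_pos hk, fun b hb hpr => hω b hb hpr⟩

/-- the number depends continuously on the digits -/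
lemma continuous_num {a : ℕ} (ha : 2 ≤ a) {n : ℕ → ℕ} (hn : StrictMono n) (y : ℝ) {J : Finset ℤ}
    {E : ℕ → Finset ℤ} (hE : ∀ k, E k ⊆ J) :
    Continuous fun d : ∀ k, E k => num a n y fun k => d k := by
  obtain ⟨B, hB0, hB⟩ := bound_J J
  unfold num
  refine continuous_const.add ?_
  refine continuous_tsum (u := fun k => B * (1 / 2 : ℝ) ^ k) (fun k => ?_)
    ((summable_geometric_of_lt_one (by norm_num) (by norm_num)).mul_left B) fun k d => ?_
  · refine Continuous.div_const ?_ _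
    exact (continuous_of_discreteTopology (f := fun z : E k => ((z : ℤ) : ℝ))).comp
      (continuous_apply k)
  · have ha2 : (2 : ℝ) ≤ a := by exact_mod_cast ha
    rw [norm_div, Real.norm_eq_abs, Real.norm_eq_abs,
      abs_of_nonneg (by positivity : (0 : ℝ) ≤ (a : ℝ) ^ n k), div_eq_mul_inv]
    refine mul_le_mul (hB _ (hE k (d k).2)) ?_ (by positivity) hB0
    rw [one_div, inv_pow]
    apply inv_anti₀ (by positivity)
    calc (2 : ℝ) ^ k ≤ 2 ^ n k := pow_le_pow_right₀ (by norm_num) hn.le_apply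
      _ ≤ (a : ℝ) ^ n k := pow_le_pow_left₀ (by norm_num) ha2 _

/-- **Residual sets of digits.** -/
theorem main_res {a : ℕ} (ha : 2 ≤ a) {n : ℕ → ℕ} (hn : StrictMono n) (y : ℝ) {J : Finset ℤ}
    {E : ℕ → Finset ℤ} (hE : ∀ k, E k ⊆ J) (hE2 : ∀ k, 1 < (E k).card) :
    {d : ∀ k, E k | ∀ b : ℕ, 2 ≤ b → PrimeOff a b →
      Dense (Set.range fun m : ℕ => (((b : ℝ) ^ m * (num a n y fun k => d k) : ℝ) : Circ))} ∈
      residual (∀ k, E k) := by
  obtain ⟨𝓑, hBc, hBe, hB⟩ := TopologicalSpace.exists_countable_basis Circ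
  have hcont := continuous_num ha hn y hE
  have key : ∀ b : ℕ, 2 ≤ b → PrimeOff a b → ∀ U ∈ 𝓑, {d : ∀ k, E k | ∃ m : ℕ,
      (((b : ℝ) ^ m * (num a n y fun k => d k) : ℝ) : Circ) ∈ U} ∈ residual (∀ k, E k) := by
    intro b hb hpr U hUb
    have hU : IsOpen U := hB.isOpen hUb
    have hUne : U.Nonempty := Set.nonempty_iff_ne_empty.2 (fun h0 => hBe (h0 ▸ hUb))
    refine residual_of_dense_open ?_ ?_
    · have : {d : ∀ k, E k | ∃ m : ℕ, (((b : ℝ) ^ m * (num a n y fun k => d k) : ℝ) : Circ) ∈ U} =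
          ⋃ m : ℕ, (fun d : ∀ k, E k =>
            (((b : ℝ) ^ m * (num a n y fun k => d k) : ℝ) : Circ)) ⁻¹' U := by ext d; simp
      rw [this]
      refine isOpen_iUnion fun m => hU.preimage ?_
      exact (AddCircle.continuous_mk' (1 : ℝ)).comp (continuous_const.mul hcont)
    · rw [dense_iff_inter_open]
      intro V hV hVne
      obtain ⟨c, hc⟩ := hVne
      obtain ⟨I, w, hw1, hw2⟩ := isOpen_pi_iff.1 hV c hc
      obtain ⟨d, N, hd1, hd2⟩ := exists_digits ha hn y hE hE2 c (I.sup id + 1)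
      refine ⟨d, hw2 fun k hk => ?_, ?_⟩
      · have h1 : k ≤ I.sup id := Finset.le_sup (f := id) hk
        rw [hd1 k (by omega)]
        exact (hw1 k hk).2
      · have h3 := dense_of_equi _ N (hd2 b hb hpr)
        obtain ⟨_, ⟨m, rfl⟩, hm⟩ := h3.exists_mem_open hU hUne
        exact ⟨m, hm⟩
  have h2 : (⋂ b ∈ {b : ℕ | 2 ≤ b ∧ PrimeOff a b}, ⋂ U ∈ 𝓑, {d : ∀ k, E k | ∃ m : ℕ,
      (((b : ℝ) ^ m * (num a n y fun k => d k) : ℝ) : Circ) ∈ U}) ∈ residual (∀ k, E k) :=
    (countable_bInter_mem (Set.to_countable _)).2 fun b hb =>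
      (countable_bInter_mem hBc).2 (key b hb.1 hb.2)
  refine Filter.mem_of_superset h2 fun d hd b hb hpr => ?_
  rw [Set.mem_iInter₂] at hd
  have hd' := hd b ⟨hb, hpr⟩
  rw [Set.mem_iInter₂] at hd'
  rw [hB.dense_iff]
  intro U hUb _
  obtain ⟨m, hm⟩ := hd' U hUb
  exact ⟨_, hm, m, rfl⟩

end Pool.Agent.K1H67.SD
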