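import Pool.Agent.K1H67.SD.Avg

/-!
# The second moment of the Weyl sums of a number with independent random digits
-/

set_option autoImplicit false

open Finset MeasureTheory ProbabilityTheory Filter Topology

namespace Pool.Agent.K1H67.SD

/-- a set of indices with gaps along which the product of the `1 - δ k` is small -/
lemma exists_indices {n : ℕ → ℕ} (hn : StrictMono n) {δ : ℕ → ℝ} (h0 : ∀ k, 0 ≤ δ k)
    (h1 : ∀ k, δ k ≤ 1) (hδ : ¬ Summable δ) (κ g : ℕ) {ε : ℝ} (hε : 0 < ε) :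
    ∃ (K : ℕ) (ind : ℕ → ℕ), StrictMono ind ∧ (∀ i, κ ≤ n (ind i)) ∧
      (∀ i, n (ind i) + g ≤ n (ind (i + 1))) ∧ ∏ i ∈ range K, (1 - δ (ind i)) < ε := by
  set G : ℕ := g + 1 with hG
  have hG0 : 0 < G := by omega
  -- the products tend to zero
  have hdiv : Tendsto (fun N => ∑ k ∈ range N, δ (κ + k)) atTop atTop := by
    apply (not_summable_iff_tendsto_nat_atTop_of_nonneg fun k => h0 _).1
    intro hs
    apply hδ
    rw [← summable_nat_add_iff κ]
    refine hs.congr fun k => ?_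
    rw [add_comm]
  have hprod : ∀ N, ∏ k ∈ range N, (1 - δ (κ + k)) ≤ Real.exp (-∑ k ∈ range N, δ (κ + k)) := by
    intro N
    rw [← Finset.sum_neg_distrib, Real.exp_sum]
    refine Finset.prod_le_prod (fun k _ => by linarith [h1 (κ + k)]) fun k _ => ?_
    have := Real.add_one_le_exp (-δ (κ + k))
    linarith
  obtain ⟨N, hN⟩ : ∃ N : ℕ, Real.exp (-∑ k ∈ range (G * N), δ (κ + k)) < ε ^ G := by
    have h2 : Tendsto (fun N : ℕ => Real.exp (-∑ k ∈ range (G * N), δ (κ + k))) atTop (𝓝 0) := by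
      apply Real.tendsto_exp_neg_atTop_nhds_zero.comp
      exact hdiv.comp (tendsto_id.const_mul_atTop' hG0)
    have h3 := h2.eventually_lt_const (show (0 : ℝ) < ε ^ G by positivity)
    exact h3.exists
  have hsmall := (hprod (G * N)).trans_lt hN
  -- split into classes
  have hsplit : ∏ k ∈ range (G * N), (1 - δ (κ + k)) =
      ∏ r ∈ range G, ∏ i ∈ range N, (1 - δ (κ + (r + G * i))) := by
    rw [Finset.prod_comm]
    clear hsmall hN
    induction N with
    | zero => simp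
    | succ N ih =>
      rw [Nat.mul_succ, Finset.prod_range_add, ih,
        Finset.prod_range_succ (fun i => ∏ r ∈ range G, (1 - δ (κ + (r + G * i)))) N]
      refine congrArg₂ (· * ·) rfl (Finset.prod_congr rfl fun r _ => ?_)
      rw [add_comm (G * N) r]
  obtain ⟨r, hr⟩ : ∃ r : ℕ, ∏ i ∈ range N, (1 - δ (κ + (r + G * i))) < ε := by
    by_contra hcon
    push Not at hcon
    rw [hsplit] at hsmall
    have h4 : ε ^ G ≤ ∏ r ∈ range G, ∏ i ∈ range N, (1 - δ (κ + (r + G * i))) := by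
      have : ε ^ G = ∏ _r ∈ range G, ε := by simp
      rw [this]
      exact Finset.prod_le_prod (fun _ _ => hε.le) fun r _ => hcon r
    linarith
  refine ⟨N, fun i => κ + (r + G * i), ?_, fun i => ?_, fun i => ?_, hr⟩
  · refine strictMono_nat_of_lt_succ fun i => ?_
    have : G * i < G * (i + 1) := Nat.mul_lt_mul_of_pos_left (by omega) hG0
    show κ + (r + G * i) < κ + (r + G * (i + 1))
    omega
  · show κ ≤ n (κ + (r + G * i))
    have := hn.le_apply (x := κ + (r + G * i))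
    omega
  · have e : κ + (r + G * (i + 1)) = (κ + (r + G * i)) + G := by ring
    show n (κ + (r + G * i)) + g ≤ n (κ + (r + G * (i + 1)))
    rw [e]
    have := hn.add_le_nat G (κ + (r + G * i))
    rw [add_comm G (κ + (r + G * i))] at this
    omega

variable {Ω : Type*} [MeasurableSpace Ω] {P : Measure Ω}

/-- the law of a digit -/
noncomputable def wt (P : Measure Ω) (D : ℕ → Ω → ℤ) (k : ℕ) (j : ℤ) : ℝ := P.real {ω | D k ω = j}

lemma meas_eq {D : ℕ → Ω → ℤ} (hD : ∀ k, Measurable (D k)) (k : ℕ) (j : ℤ) :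
    MeasurableSet {ω | D k ω = j} := hD k (measurableSet_singleton j)

lemma integral_ee_digit [IsProbabilityMeasure P] {D : ℕ → Ω → ℤ} (hD : ∀ k, Measurable (D k))
    {J : Finset ℤ} (hJ : ∀ k ω, D k ω ∈ J) (k : ℕ) (t : ℝ) :
    ∫ ω, ee (t * D k ω) ∂P = ph J (wt P D k) t := by
  have h1 : ∀ ω, ee (t * D k ω) =
      ∑ j ∈ J, ({ω | D k ω = j} : Set Ω).indicator (fun _ => ee (j * t)) ω := by
    intro ω
    rw [Finset.sum_eq_single (D k ω)]
    · rw [Set.indicator_of_mem (by simp), mul_comm]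
    · intro j _ hj
      rw [Set.indicator_of_notMem]
      intro h
      exact hj (by simpa using h.symm)
    · intro h
      exact absurd (hJ k ω) h
  simp_rw [h1]
  rw [integral_finsetSum]
  · unfold ph wt
    refine Finset.sum_congr rfl fun j _ => ?_
    rw [integral_indicator_const _ (meas_eq hD k j)]
    simp
  · intro j _
    exact (integrable_const _).indicator (meas_eq hD k j)

lemma norm_ph_le_one [IsProbabilityMeasure P] {D : ℕ → Ω → ℤ} (hD : ∀ k, Measurable (D k))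
    {J : Finset ℤ} (hJ : ∀ k ω, D k ω ∈ J) (k : ℕ) (t : ℝ) :
    ‖ph J (wt P D k) t‖ ≤ 1 := by
  rw [← integral_ee_digit hD hJ]
  refine (norm_integral_le_integral_norm _).trans ?_
  simp [norm_ee]

lemma sum_wt [IsProbabilityMeasure P] {D : ℕ → Ω → ℤ} (hD : ∀ k, Measurable (D k))
    {J : Finset ℤ} (hJ : ∀ k ω, D k ω ∈ J) (k : ℕ) : ∑ j ∈ J, wt P D k j = 1 := by
  have h := integral_ee_digit (P := P) hD hJ k 0
  simp only [zero_mul, ee_zero, ph, mul_zero, mul_one, integral_const, probReal_univ, one_smul] at h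
  exact_mod_cast h.symm

lemma sum_sq_wt [IsProbabilityMeasure P] {D : ℕ → Ω → ℤ} (hD : ∀ k, Measurable (D k))
    {J : Finset ℤ} (hJ : ∀ k ω, D k ω ∈ J) {k : ℕ} {δ : ℝ}
    (hδ : ∀ j : ℤ, P.real {ω | D k ω = j} ≤ 1 - δ) : ∑ j ∈ J, wt P D k j ^ 2 ≤ 1 - δ := by
  calc ∑ j ∈ J, wt P D k j ^ 2 ≤ ∑ j ∈ J, (1 - δ) * wt P D k j := by
        refine Finset.sum_le_sum fun j _ => ?_
        rw [sq]
        exact mul_le_mul_of_nonneg_right (hδ j) measureReal_nonneg
    _ = 1 - δ := by rw [← Finset.mul_sum, sum_wt hD hJ, mul_one]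

/-- the number with the digits `D` at the places `n`, added to `y` -/
noncomputable def X (a : ℕ) (n : ℕ → ℕ) (y : ℝ) (D : ℕ → Ω → ℤ) (ω : Ω) : ℝ :=
  y + ∑' k, (D k ω : ℝ) / (a : ℝ) ^ n k

lemma bound_J (J : Finset ℤ) : ∃ B : ℝ, 0 ≤ B ∧ ∀ j ∈ J, |(j : ℝ)| ≤ B :=
  ⟨∑ j ∈ J, |(j : ℝ)|, Finset.sum_nonneg fun _ _ => abs_nonneg _, fun _ hj =>
    Finset.single_le_sum (f := fun j : ℤ => |(j : ℝ)|) (fun _ _ => abs_nonneg _) hj⟩

lemma summable_digits {a : ℕ} (ha : 2 ≤ a) {n : ℕ → ℕ} (hn : StrictMono n) {B : ℝ} {d : ℕ → ℤ}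
    (hd : ∀ k, |(d k : ℝ)| ≤ B) : Summable fun k => (d k : ℝ) / (a : ℝ) ^ n k := by
  have hB : 0 ≤ B := (abs_nonneg _).trans (hd 0)
  refine Summable.of_norm_bounded (g := fun k => B * (1 / 2 : ℝ) ^ k)
    ((summable_geometric_of_lt_one (by norm_num) (by norm_num)).mul_left B) fun k => ?_
  have ha2 : (2 : ℝ) ≤ a := by exact_mod_cast ha
  rw [norm_div, Real.norm_eq_abs, Real.norm_eq_abs, abs_of_nonneg (by positivity : (0 : ℝ) ≤ (a : ℝ) ^ n k),
    div_eq_mul_inv]
  refine mul_le_mul (hd k) ?_ (by positivity) hB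
  rw [one_div, inv_pow]
  apply inv_anti₀ (by positivity)
  calc (2 : ℝ) ^ k ≤ 2 ^ n k := pow_le_pow_right₀ (by norm_num) hn.le_apply
    _ ≤ (a : ℝ) ^ n k := pow_le_pow_left₀ (by norm_num) ha2 _

/-- **The Fourier transform of the law of `X`** is bounded by partial products. -/
theorem norm_char_le [IsProbabilityMeasure P] {a : ℕ} (ha : 2 ≤ a) {n : ℕ → ℕ} (hn : StrictMono n)
    {D : ℕ → Ω → ℤ} (hD : ∀ k, Measurable (D k)) (hind : iIndepFun D P) {J : Finset ℤ}
    (hJ : ∀ k ω, D k ω ∈ J) (y u : ℝ) (K : ℕ) {ind : ℕ → ℕ} (hi : StrictMono ind) :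
    ‖∫ ω, ee (u * X a n y D ω) ∂P‖ ≤
      ∏ i ∈ range K, ‖ph J (wt P D (ind i)) (u / (a : ℝ) ^ n (ind i))‖ := by
  obtain ⟨B, hB0, hB⟩ := bound_J J
  -- partial sums
  set Y : ℕ → Ω → ℝ := fun N ω => y + ∑ k ∈ range N, (D k ω : ℝ) / (a : ℝ) ^ n k with hY
  have hlim : Tendsto (fun N => ∫ ω, ee (u * Y N ω) ∂P) atTop (𝓝 (∫ ω, ee (u * X a n y D ω) ∂P)) := by
    refine tendsto_integral_of_dominated_convergence (fun _ => 1) (fun N => ?_)
      (integrable_const _) (fun N => Eventually.of_forall fun ω => (norm_ee _).le)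
      (Eventually.of_forall fun ω => ?_)
    · apply Measurable.aestronglyMeasurable
      apply continuous_ee.measurable.comp
      refine Measurable.const_mul ?_ u
      refine Measurable.const_add ?_ y
      refine Finset.measurable_fun_sum _ fun k _ => ?_
      exact ((measurable_from_top (f := fun z : ℤ => (z : ℝ))).comp (hD k)).div_const _
    · apply (continuous_ee.tendsto _).comp
      apply Tendsto.const_mul
      apply Tendsto.const_add
      exact (summable_digits ha hn (fun k => hB _ (hJ k ω))).hasSum.tendsto_sum_nat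
  have hprod : ∀ N, ∫ ω, ee (u * Y N ω) ∂P =
      ee (u * y) * ∏ k ∈ range N, ph J (wt P D k) (u / (a : ℝ) ^ n k) := by
    intro N
    have h1 : ∀ ω, ee (u * Y N ω) =
        ee (u * y) * ∏ k : Fin N, ee ((u / (a : ℝ) ^ n k) * D k ω) := by
      intro ω
      have h2 : ∀ N : ℕ, ee (u * (y + ∑ k ∈ range N, (D k ω : ℝ) / (a : ℝ) ^ n k)) =
          ee (u * y) * ∏ k ∈ range N, ee ((u / (a : ℝ) ^ n k) * D k ω) := by
        intro N
        induction N with
        | zero => simp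
        | succ N ih =>
          rw [Finset.sum_range_succ, Finset.prod_range_succ, ← mul_assoc, ← ih, ← ee_add]
          congr 1
          ring
      rw [← Finset.prod_range (fun k => ee ((u / (a : ℝ) ^ n k) * D k ω))]
      exact h2 N
    simp_rw [h1]
    rw [integral_const_mul]
    congr 1
    have hindN : iIndepFun (fun k : Fin N => D k) P :=
      hind.precomp (g := fun k : Fin N => (k : ℕ)) Fin.val_injective
    have h3 := hindN.integral_fun_prod_comp (𝕜 := ℂ)
      (f := fun (k : Fin N) (d : ℤ) => ee ((u / (a : ℝ) ^ n k) * d))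
      (fun k => (hD k).aemeasurable)
      (fun k => (measurable_from_top).aestronglyMeasurable)
    rw [h3, Finset.prod_range]
    exact Finset.prod_congr rfl fun k _ => integral_ee_digit hD hJ k _
  refine le_of_tendsto hlim.norm ?_
  filter_upwards [eventually_ge_atTop (ind K)] with N hN
  rw [hprod, norm_mul, norm_ee, one_mul, norm_prod]
  have hsub : (range K).image ind ⊆ range N := by
    intro k hk
    rw [Finset.mem_image] at hk
    obtain ⟨i, hiK, rfl⟩ := hk
    rw [Finset.mem_range] at hiK ⊢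
    exact (hi hiK).trans_le hN
  rw [← Finset.prod_sdiff hsub, Finset.prod_image fun x _ y _ h => hi.injective h]
  have h4 : ∏ k ∈ range N \ (range K).image ind, ‖ph J (wt P D k) (u / (a : ℝ) ^ n k)‖ ≤ 1 :=
    Finset.prod_le_one (fun _ _ => norm_nonneg _) fun k _ => norm_ph_le_one hD hJ k _
  calc _ ≤ 1 * ∏ i ∈ range K, ‖ph J (wt P D (ind i)) (u / (a : ℝ) ^ n (ind i))‖ :=
        mul_le_mul_of_nonneg_right h4 (Finset.prod_nonneg fun _ _ => norm_nonneg _)
    _ = _ := one_mul _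

lemma measurable_X [IsProbabilityMeasure P] {a : ℕ} (ha : 2 ≤ a) {n : ℕ → ℕ} (hn : StrictMono n)
    {D : ℕ → Ω → ℤ} (hD : ∀ k, Measurable (D k)) {J : Finset ℤ}
    (hJ : ∀ k ω, D k ω ∈ J) (y : ℝ) : Measurable (X a n y D) := by
  obtain ⟨B, hB0, hB⟩ := bound_J J
  refine Measurable.const_add ?_ y
  refine measurable_of_tendsto_metrizable
    (f := fun N ω => ∑ k ∈ range N, (D k ω : ℝ) / (a : ℝ) ^ n k) (fun N => ?_) ?_
  · refine Finset.measurable_fun_sum _ fun k _ => ?_
    exact ((measurable_from_top (f := fun z : ℤ => (z : ℝ))).comp (hD k)).div_const _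
  · rw [tendsto_pi_nhds]
    intro ω
    exact (summable_digits ha hn (fun k => hB _ (hJ k ω))).hasSum.tendsto_sum_nat

/-- the second moment of the Weyl sums -/
noncomputable def mom (P : Measure Ω) (Z : Ω → ℝ) (b : ℕ) (h : ℤ) (M : ℕ) : ℝ :=
  ∫ ω, ‖∑ m ∈ range M, ee (h * (b : ℝ) ^ m * Z ω)‖ ^ 2 ∂P

lemma mom_le [IsProbabilityMeasure P] {Z : Ω → ℝ} (hZ : Measurable Z) (b : ℕ) (h : ℤ) (M : ℕ) :
    mom P Z b h M ≤ ∑ m' ∈ range M, ∑ m ∈ range M,
      ‖∫ ω, ee (((h * ((b : ℤ) ^ m - (b : ℤ) ^ m') : ℤ) : ℝ) * Z ω) ∂P‖ := by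
  have h1 : ((mom P Z b h M : ℝ) : ℂ) = ∑ m' ∈ range M, ∑ m ∈ range M,
      ∫ ω, ee (((h * ((b : ℤ) ^ m - (b : ℤ) ^ m') : ℤ) : ℝ) * Z ω) ∂P := by
    unfold mom
    rw [← integral_complex_ofReal]
    have h2 : ∀ ω, ((‖∑ m ∈ range M, ee (h * (b : ℝ) ^ m * Z ω)‖ ^ 2 : ℝ) : ℂ) =
        ∑ m' ∈ range M, ∑ m ∈ range M,
          ee (((h * ((b : ℤ) ^ m - (b : ℤ) ^ m') : ℤ) : ℝ) * Z ω) := by
      intro ω
      rw [Complex.ofReal_pow, ← Complex.mul_conj', map_sum, Finset.sum_mul_sum, Finset.sum_comm]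
      refine Finset.sum_congr rfl fun m' _ => Finset.sum_congr rfl fun m _ => ?_
      rw [conj_ee, ← ee_add]
      congr 1
      push_cast
      ring
    have hint : ∀ u : ℝ, Integrable (fun ω => ee (u * Z ω)) P := by
      intro u
      refine Integrable.of_bound ?_ 1 (Eventually.of_forall fun ω => (norm_ee _).le)
      exact (continuous_ee.measurable.comp (hZ.const_mul u)).aestronglyMeasurable
    rw [integral_congr_ae (Eventually.of_forall h2)]
    rw [integral_finsetSum _ fun m' _ => integrable_finsetSum _ fun m _ => hint _]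
    exact Finset.sum_congr rfl fun m' _ => integral_finsetSum _ fun m _ => hint _
  have h4 : mom P Z b h M = ‖((mom P Z b h M : ℝ) : ℂ)‖ := by
    rw [Complex.norm_real, Real.norm_of_nonneg]
    exact integral_nonneg fun ω => by positivity
  rw [h4, h1]
  refine (norm_sum_le _ _).trans (Finset.sum_le_sum fun m' _ => norm_sum_le _ _)

end Pool.Agent.K1H67.SD
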