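import Pool.Agent.K1H67.SD.Prob

/-!
# The second moment tends to zero; common sequences of times
-/

set_option autoImplicit false

open Finset MeasureTheory ProbabilityTheory Filter Topology

namespace Pool.Agent.K1H67.SD

variable {Ω : Type*} [MeasurableSpace Ω] {P : Measure Ω}

/-- **The second moment.** -/
theorem mom_tendsto [IsProbabilityMeasure P] {a b p : ℕ} (ha : 2 ≤ a) (hb : 2 ≤ b) (hp : p.Prime)
    (hpa : p ∣ a) (hpb : ¬ p ∣ b) {n : ℕ → ℕ} (hn : StrictMono n)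
    {D : ℕ → Ω → ℤ} (hD : ∀ k, Measurable (D k)) (hind : iIndepFun D P) {J : Finset ℤ}
    (hJ : ∀ k ω, D k ω ∈ J) {δ : ℕ → ℝ} (h0 : ∀ k, 0 ≤ δ k) (hδ : ¬ Summable δ)
    (hnd : ∀ (k : ℕ) (j : ℤ), P.real {ω | D k ω = j} ≤ 1 - δ k) (y : ℝ) {h : ℤ} (hh : h ≠ 0) :
    Tendsto (fun M : ℕ => mom P (X a n y D) b h M / (M : ℝ) ^ 2) atTop (𝓝 0) := by
  have h1 : ∀ k, δ k ≤ 1 := by
    intro k
    have := hnd k 0
    have h2 : (0 : ℝ) ≤ P.real {ω | D k ω = 0} := measureReal_nonneg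
    linarith
  have hZ := measurable_X (P := P) ha hn hD hJ y
  obtain ⟨κ, g, havg⟩ := avg ha hb hp hpa hpb J hh
  have hpos : ∀ M : ℕ, 0 ≤ mom P (X a n y D) b h M / (M : ℝ) ^ 2 := fun M =>
    div_nonneg (integral_nonneg fun ω => by positivity) (by positivity)
  rw [Metric.tendsto_atTop]
  intro ε hε
  set η : ℝ := (ε / 2) ^ 2 with hη
  have hη0 : 0 < η := by positivity
  obtain ⟨K, ind, hi, hk1, hk2, hprod⟩ := exists_indices hn h0 h1 hδ κ g hη0
  obtain ⟨T, hT⟩ := havg K (fun i => n (ind i)) (fun i _ => hk1 i) (fun i _ => hk2 i)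
  set m0 : ℕ := a * n (ind K) with hm0
  have hm0' : ∀ i < K, a * n (ind i) ≤ m0 := fun i hiK =>
    Nat.mul_le_mul_left a (hn.monotone (hi.monotone hiK.le))
  -- the inner sums
  have hinner : ∀ (M : ℕ) (v : ℤ), ∑ m ∈ range M,
      ‖∫ ω, ee (((h * ((b : ℤ) ^ m - v) : ℤ) : ℝ) * X a n y D ω) ∂P‖ ≤
        m0 + (M + T) * (ε / 2) := by
    intro M v
    set c : ℕ → ℝ := fun m =>
      ‖∫ ω, ee (((h * ((b : ℤ) ^ m - v) : ℤ) : ℝ) * X a n y D ω) ∂P‖ with hc
    have hc0 : ∀ m, 0 ≤ c m := fun m => norm_nonneg _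
    have hc1 : ∀ m, c m ≤ 1 := by
      intro m
      refine (norm_integral_le_integral_norm _).trans ?_
      simp [norm_ee]
    set Q : ℕ → ℝ := fun m => ∏ i ∈ range K,
      ‖ph J (wt P D (ind i)) (((h * ((b : ℤ) ^ (m0 + m) - v) : ℤ) : ℝ) / (a : ℝ) ^ n (ind i))‖ with hQ
    have hQ0 : ∀ m, 0 ≤ Q m := fun m => Finset.prod_nonneg fun _ _ => norm_nonneg _
    have hcQ : ∀ m, c (m0 + m) ≤ Q m := fun m =>
      norm_char_le ha hn hD hind hJ y _ K hi
    have h3 : ∑ m ∈ range M, c m ≤ ∑ m ∈ range (m0 + M), c m :=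
      Finset.sum_le_sum_of_subset_of_nonneg (Finset.range_mono (by omega)) fun m _ _ => hc0 m
    have h4 : ∑ m ∈ range m0, c m ≤ m0 := by
      calc ∑ m ∈ range m0, c m ≤ ∑ _m ∈ range m0, (1 : ℝ) := Finset.sum_le_sum fun m _ => hc1 m
        _ = m0 := by simp
    have h5 : (∑ m ∈ range M, Q m) ^ 2 ≤ M * ((M + T) * η) := by
      have h6 := sq_sum_le_card_mul_sum_sq (s := range M) (f := Q)
      rw [Finset.card_range] at h6
      refine h6.trans ?_
      apply mul_le_mul_of_nonneg_left _ (Nat.cast_nonneg _)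
      have h7 := hT (fun i => wt P D (ind i)) v m0 hm0' M
      have h8 : ∑ m ∈ range M, Q m ^ 2 = ∑ m ∈ range M, ∏ i ∈ range K,
          ‖ph J (wt P D (ind i))
            (((h * ((b : ℤ) ^ (m0 + m) - v) : ℤ) : ℝ) / (a : ℝ) ^ n (ind i))‖ ^ 2 := by
        refine Finset.sum_congr rfl fun m _ => ?_
        rw [hQ]
        simp only
        rw [← Finset.prod_pow]
      rw [h8]
      refine h7.trans ?_
      apply mul_le_mul_of_nonneg_left _ (by positivity)
      refine le_trans ?_ hprod.le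
      exact Finset.prod_le_prod (fun i _ => Finset.sum_nonneg fun j _ => sq_nonneg _)
        fun i _ => sum_sq_wt hD hJ (hnd (ind i))
    have h9 : ∑ m ∈ range M, Q m ≤ (M + T) * (ε / 2) := by
      apply le_of_sq_le_sq _ (by positivity)
      refine h5.trans ?_
      rw [mul_pow, ← hη]
      have : (M : ℝ) * ((M + T) * η) ≤ (M + T) * ((M + T) * η) := by
        apply mul_le_mul_of_nonneg_right _ (by positivity)
        have : (0 : ℝ) ≤ T := Nat.cast_nonneg _
        linarith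
      refine this.trans (le_of_eq ?_)
      ring
    calc ∑ m ∈ range M, c m ≤ ∑ m ∈ range (m0 + M), c m := h3
      _ = ∑ m ∈ range m0, c m + ∑ m ∈ range M, c (m0 + m) := Finset.sum_range_add _ _ _
      _ ≤ m0 + ∑ m ∈ range M, Q m := add_le_add h4 (Finset.sum_le_sum fun m _ => hcQ m)
      _ ≤ _ := by linarith
  -- conclusion
  have hmom : ∀ M : ℕ, mom P (X a n y D) b h M ≤ M * (m0 + (M + T) * (ε / 2)) := by
    intro M
    refine (mom_le hZ b h M).trans ?_
    refine (Finset.sum_le_sum fun m' _ => hinner M ((b : ℤ) ^ m')).trans ?_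
    rw [Finset.sum_const, Finset.card_range, nsmul_eq_mul]
  obtain ⟨M0, hM0⟩ := exists_nat_gt ((m0 + T * (ε / 2)) / (ε / 2))
  refine ⟨M0 + 1, fun M hM => ?_⟩
  have hM1 : (1 : ℝ) ≤ M := by exact_mod_cast (show 1 ≤ M by omega)
  rw [Real.dist_eq, sub_zero, abs_of_nonneg (hpos M), div_lt_iff₀ (by positivity)]
  refine (hmom M).trans_lt ?_
  have h10 : (m0 + T * (ε / 2)) < (ε / 2) * M := by
    have h11 : (M0 : ℝ) < M := by exact_mod_cast (show M0 < M by omega)
    rw [div_lt_iff₀ (by positivity)] at hM0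
    nlinarith
  have h12 : (m0 : ℝ) + (M + T) * (ε / 2) < ε * M := by nlinarith
  calc (M : ℝ) * (m0 + (M + T) * (ε / 2)) < M * (ε * M) :=
        mul_lt_mul_of_pos_left h12 (by linarith)
    _ = ε * (M : ℝ) ^ 2 := by ring

/-- almost sure convergence along a common sequence -/
theorem ae_common [IsProbabilityMeasure P] {Y : ℕ → ℕ → Ω → ℂ} (hm : ∀ i M, Measurable (Y i M))
    (hint : ∀ i M, Integrable (fun ω => ‖Y i M ω‖ ^ 2) P)
    (h : ∀ i, Tendsto (fun M => ∫ ω, ‖Y i M ω‖ ^ 2 ∂P) atTop (𝓝 0)) :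
    ∃ N : ℕ → ℕ, StrictMono N ∧
      ∀ᵐ ω ∂P, ∀ i, Tendsto (fun j => Y i (N j) ω) atTop (𝓝 0) := by
  obtain ⟨N, hN, hN2⟩ := extraction_forall_of_eventually
    (P := fun j M => ∀ i ∈ range (j + 1), ∫ ω, ‖Y i M ω‖ ^ 2 ∂P ≤ (1 / 2 : ℝ) ^ j) (fun j => by
      rw [Filter.eventually_all_finset]
      intro i _
      exact (h i).eventually_le_const (by positivity))
  refine ⟨N, hN, ?_⟩
  rw [ae_all_iff]
  intro i
  have hsum : Summable (fun j => ∫ ω, ‖Y i (N j) ω‖ ^ 2 ∂P) := by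
    rw [← summable_nat_add_iff i]
    refine Summable.of_nonneg_of_le (fun j => integral_nonneg fun ω => by positivity)
      (fun j => ?_) (summable_geometric_of_lt_one (r := (1 / 2 : ℝ)) (by norm_num) (by norm_num))
    refine (hN2 (j + i) i (by simp)).trans ?_
    rw [pow_add]
    have : (1 / 2 : ℝ) ^ i ≤ 1 := pow_le_one₀ (by norm_num) (by norm_num)
    have h2 : (0 : ℝ) < (1 / 2) ^ j := by positivity
    nlinarith
  have hl : ∫⁻ ω, ∑' j, ENNReal.ofReal (‖Y i (N j) ω‖ ^ 2) ∂P ≠ ⊤ := by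
    rw [lintegral_tsum fun j => ((hm i (N j)).norm.pow_const 2).ennreal_ofReal.aemeasurable]
    have h3 : ∀ j, ∫⁻ ω, ENNReal.ofReal (‖Y i (N j) ω‖ ^ 2) ∂P =
        ENNReal.ofReal (∫ ω, ‖Y i (N j) ω‖ ^ 2 ∂P) := fun j =>
      (ofReal_integral_eq_lintegral_ofReal (hint i (N j))
        (Eventually.of_forall fun ω => by positivity)).symm
    simp_rw [h3]
    rw [← ENNReal.ofReal_tsum_of_nonneg (fun j => integral_nonneg fun ω => by positivity) hsum]
    exact ENNReal.ofReal_ne_top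
  have hae := ae_lt_top (Measurable.tsum fun j =>
    ((hm i (N j)).norm.pow_const 2).ennreal_ofReal) hl
  filter_upwards [hae] with ω hω
  have h4 := ENNReal.tendsto_atTop_zero_of_tsum_ne_top hω.ne
  have h5 : Tendsto (fun j => ‖Y i (N j) ω‖ ^ 2) atTop (𝓝 0) := by
    have h6 := (ENNReal.tendsto_toReal ENNReal.zero_ne_top).comp h4
    refine h6.congr fun j => ?_
    simp only [Function.comp]
    exact ENNReal.toReal_ofReal (by positivity)
  rw [tendsto_zero_iff_norm_tendsto_zero]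
  have h7 := (Real.continuous_sqrt.tendsto 0).comp h5
  rw [Real.sqrt_zero] at h7
  refine h7.congr fun j => ?_
  simp only [Function.comp]
  exact Real.sqrt_sq (norm_nonneg _)

end Pool.Agent.K1H67.SD
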